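import Pool.Agent.Lib.MP_9d2e01_pr.Two.Tail

set_option autoImplicit false
set_option linter.unusedSectionVars false
set_option linter.deprecated false

namespace Pool.Agent.Lib.MP_9d2e01_pr

open MeasureTheory ProbabilityTheory Finset Relation

/-- One step between edges: reverse the edge, or pass to the previous exit. -/
def EStep (ρ : V → Fin 4) (a b : V × Fin 4) : Prop :=
  b = (a.1 + dir a.2, a.2 + 2) ∨ (a.2 ≠ ρ a.1 + 1 ∧ b = (a.1, a.2 + 3))

/-- A chain of edges from the box of radius `r` leaves the box of radius `2 r`. -/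
def Esc (ρ : V → Fin 4) (x : V) (r : ℕ) : Prop :=
  ∃ a b, Near r x a.1 ∧ ReflTransGen (EStep ρ) a b ∧ ¬ Near (2 * r) x b.1

lemma EStep.near {ρ : V → Fin 4} {a b : V × Fin 4} (h : EStep ρ a b) : Near 1 a.1 b.1 := by
  rcases h with rfl | ⟨-, rfl⟩
  · rcases fin4_cases a.2 with h | h | h | h <;> simp [Near, h, dir]
  · simp [Near]

lemma Esc.congr {ρ ρ' : V → Fin 4} {x : V} {r : ℕ} (h : ∀ y, Near (2 * r) x y → ρ y = ρ' y)
    (hE : Esc ρ x r) : Esc ρ' x r := by
  obtain ⟨a, b, h1, h2, h3⟩ := hE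
  have key : ReflTransGen (EStep ρ') a b ∨
      ∃ c, ReflTransGen (EStep ρ') a c ∧ ¬ Near (2 * r) x c.1 := by
    clear h3
    induction h2 with
    | refl => exact Or.inl ReflTransGen.refl
    | @tail b c _ hs ih =>
      rcases ih with ih | ih
      · by_cases hb : Near (2 * r) x b.1
        · refine Or.inl (ih.tail ?_)
          unfold EStep at hs ⊢
          rwa [← h _ hb]
        · exact Or.inr ⟨b, ih, hb⟩
      · exact Or.inr ih
  rcases key with k | ⟨c, k1, k2⟩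
  · exact ⟨a, b, h1, k, h3⟩
  · exact ⟨a, c, h1, k1, k2⟩

/-- Box of radius `r`. -/
noncomputable def box (r : ℕ) (x : V) : Finset V :=
  Finset.Icc (x.1 - r) (x.1 + r) ×ˢ Finset.Icc (x.2 - r) (x.2 + r)

lemma mem_box {r : ℕ} {x y : V} : y ∈ box r x ↔ Near r x y := by
  simp only [box, Finset.mem_product, Finset.mem_Icc, Near, abs_le]
  omega

lemma card_box (r : ℕ) (x : V) : (box r x).card = (2 * r + 1) ^ 2 := by
  rw [box, Finset.card_product, Int.card_Icc, Int.card_Icc]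
  have e1 : (x.1 + r + 1 - (x.1 - r)).toNat = 2 * r + 1 := by omega
  have e2 : (x.2 + r + 1 - (x.2 - r)).toNat = 2 * r + 1 := by omega
  rw [e1, e2, sq]

lemma Esc.loc (x : V) (r : ℕ) : LocF (fun ρ => Esc ρ x r) {y | Near (2 * r) x y} :=
  ⟨box (2 * r) x, fun _ hy => mem_box.mp hy, fun _ _ h => propext
    ⟨Esc.congr (fun y hy => h y (mem_box.mpr hy)),
      Esc.congr (fun y hy => (h y (mem_box.mpr hy)).symm)⟩⟩

lemma Clo.reach {ρ : V → Fin 4} {A : V → Fin 4 → Prop} (h : Clo ρ A) {a b : V × Fin 4}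
    (ha : A a.1 a.2) (hab : ReflTransGen (EStep ρ) a b) : A b.1 b.2 := by
  induction hab with
  | refl => exact ha
  | tail _ hs ih =>
    rcases hs with rfl | ⟨h1, rfl⟩
    · exact h.symm _ _ ih
    · exact h.seg _ _ ih h1

lemma clo_of_not_esc {ρ : V → Fin 4} {x : V} {r : ℕ} (h : ¬ Esc ρ x r) :
    ∃ A, Clo ρ A ∧ (∀ d, A x d) ∧ ∀ y e, A y e → Near (2 * r) x y := by
  refine ⟨fun y e => ∃ d, ReflTransGen (EStep ρ) (x, d) (y, e), ⟨?_, ?_⟩,
    fun d => ⟨d, ReflTransGen.refl⟩, ?_⟩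
  · rintro y e ⟨d, hd⟩
    exact ⟨d, hd.tail (Or.inl rfl)⟩
  · rintro y e ⟨d, hd⟩ he
    exact ⟨d, hd.tail (Or.inr ⟨he, rfl⟩)⟩
  · rintro y e ⟨d, hd⟩
    by_contra hc
    exact h ⟨(x, d), (y, e), by simp [Near], hd, hc⟩

lemma not_esc_of_good {ρ : V → Fin 4} {x : V} {D : ℕ}
    (h : ∀ y, Near (D + 2) x y → Good ρ D y) : ¬ Esc ρ x (D + 1) := by
  rintro ⟨a, b, h1, h2, h3⟩
  have hn : ∀ y, Near 1 a.1 y → Near (D + 2) x y := by
    intro y hy
    simp only [Near, abs_le] at h1 hy ⊢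
    push_cast at h1 hy ⊢
    omega
  obtain ⟨A, a1, a2, a3⟩ := Good.all (x := a.1) (h _ (hn _ (by simp [Near])))
    (h _ (hn _ (by simp [Near, dir]))) (h _ (hn _ (by simp [Near, dir])))
  have := a3 _ _ (a1.reach (a2 a.2) h2)
  apply h3
  simp only [Near, abs_le] at h1 this ⊢
  push_cast at h1 this ⊢
  omega

lemma round_near (r : ℕ) (hr : 1 ≤ r) (x y : V) :
    Near r (x.1 + r * ((y.1 - x.1) / r), x.2 + r * ((y.2 - x.2) / r)) y := by
  have h0 : (0 : ℤ) < r := by exact_mod_cast hr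
  have a1 := Int.emod_add_mul_ediv (y.1 - x.1) r
  have a2 := Int.emod_nonneg (y.1 - x.1) h0.ne'
  have a3 := Int.emod_lt_of_pos (y.1 - x.1) h0
  have b1 := Int.emod_add_mul_ediv (y.2 - x.2) r
  have b2 := Int.emod_nonneg (y.2 - x.2) h0.ne'
  have b3 := Int.emod_lt_of_pos (y.2 - x.2) h0
  simp only [Near, abs_le]
  omega

lemma div_bound {r : ℕ} (hr : 1 ≤ r) {z c : ℤ} (h : |z| ≤ c * r) : |z / r| ≤ c := by
  have h0 : (0 : ℤ) < r := by exact_mod_cast hr
  rw [abs_le] at h ⊢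
  constructor
  · rw [Int.le_ediv_iff_mul_le h0]; linarith [h.1]
  · exact Int.ediv_le_of_le_mul h0 h.2

lemma mul_bound {r : ℕ} {g c : ℤ} (h : |g| ≤ c) : |(r : ℤ) * g| ≤ c * r := by
  rw [abs_mul, abs_of_nonneg (Int.natCast_nonneg r), mul_comm]
  exact mul_le_mul_of_nonneg_right h (Int.natCast_nonneg r)

/-- Pairs of far apart grid points. -/
noncomputable def pairs (N : ℕ) : Finset (V × V) :=
  (box N 0 ×ˢ box N 0).filter (fun z => 5 ≤ |z.1.1 - z.2.1| ∨ 5 ≤ |z.1.2 - z.2.2|)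

lemma mem_pairs {N : ℕ} {z : V × V} : z ∈ pairs N ↔ (Near N 0 z.1 ∧ Near N 0 z.2) ∧
    (5 ≤ |z.1.1 - z.2.1| ∨ 5 ≤ |z.1.2 - z.2.2|) := by
  simp only [pairs, Finset.mem_filter, Finset.mem_product, mem_box]

lemma card_pairs (N : ℕ) : (pairs N).card ≤ ((2 * N + 1) ^ 2) ^ 2 := by
  refine (Finset.card_filter_le _ _).trans ?_
  rw [Finset.card_product, card_box, sq ((2 * N + 1) ^ 2)]

attribute [irreducible] pairs

/-- Grid point. -/
def gp (r : ℕ) (x g : V) : V := (x.1 + r * g.1, x.2 + r * g.2)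

lemma Esc.split {ρ : V → Fin 4} {x : V} {r : ℕ} (hr : 1 ≤ r) (h : Esc ρ x (8 * r)) :
    ∃ z ∈ pairs 13, Esc ρ (gp r x z.1) r ∧ Esc ρ (gp r x z.2) r := by
  obtain ⟨a, b, h1, h2, h3⟩ := h
  have h0 : (0 : ℤ) < r := by exact_mod_cast hr
  have key : Near (13 * r) x a.1 → ∃ c, ReflTransGen (EStep ρ) c b ∧ Near (13 * r) x c.1 ∧
      (|c.1.1 - x.1| = 13 * r ∨ |c.1.2 - x.2| = 13 * r) := by
    clear h1
    induction h2 using ReflTransGen.head_induction_on with
    | refl =>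
      intro h4
      exfalso
      apply h3
      simp only [Near, abs_le] at h4 ⊢
      push_cast at h4 ⊢
      omega
    | @head a a' hs ht ih =>
      intro h4
      by_cases h5 : Near (13 * r) x a'.1
      · exact ih h5
      · refine ⟨a, ht.head hs, h4, ?_⟩
        have h6 := hs.near
        simp only [Near, abs_le] at h4 h5 h6
        push_cast at h4 h5 h6
        rw [abs_eq (by positivity), abs_eq (by positivity)]
        omega
  obtain ⟨c, c1, c2, c3⟩ := key (by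
    simp only [Near, abs_le] at h1 ⊢
    push_cast at h1 ⊢
    omega)
  have a1 : |(a.1.1 - x.1) / r| ≤ 8 := div_bound hr (by have := h1.1; push_cast at this; exact this)
  have a2 : |(a.1.2 - x.2) / r| ≤ 8 := div_bound hr (by have := h1.2; push_cast at this; exact this)
  have d1 : |(c.1.1 - x.1) / r| ≤ 13 := div_bound hr (by have := c2.1; push_cast at this; exact this)
  have d2 : |(c.1.2 - x.2) / r| ≤ 13 := div_bound hr (by have := c2.2; push_cast at this; exact this)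
  have hex : ∀ z : ℤ, |z| = 13 * r → z / r = 13 ∨ z / r = -13 := by
    intro z hz
    rw [abs_eq (by positivity)] at hz
    rcases hz with rfl | rfl
    · left; exact Int.mul_ediv_cancel _ h0.ne'
    · right; rw [← neg_mul]; exact Int.mul_ediv_cancel _ h0.ne'
  refine ⟨(((a.1.1 - x.1) / r, (a.1.2 - x.2) / r), ((c.1.1 - x.1) / r, (c.1.2 - x.2) / r)), ?_,
    ⟨a, b, round_near r hr x a.1, h2, ?_⟩, ⟨c, b, round_near r hr x c.1, c1, ?_⟩⟩
  · simp only [mem_pairs, Near, Prod.fst_zero, Prod.snd_zero, sub_zero]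
    refine ⟨⟨⟨by push_cast; linarith, by push_cast; linarith⟩, ⟨d1, d2⟩⟩, ?_⟩
    rw [abs_le] at a1 a2
    rcases c3 with c3 | c3
    · left; rcases hex _ c3 with e | e <;> rw [e, le_abs] <;> omega
    · right; rcases hex _ c3 with e | e <;> rw [e, le_abs] <;> omega
  · intro h4
    apply h3
    have m1 := mul_bound (r := r) a1
    have m2 := mul_bound (r := r) a2
    simp only [Near, gp, abs_le] at h4 m1 m2 ⊢
    push_cast at h4 ⊢
    omega
  · intro h4
    apply h3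
    have m1 := mul_bound (r := r) d1
    have m2 := mul_bound (r := r) d2
    simp only [Near, gp, abs_le] at h4 m1 m2 ⊢
    push_cast at h4 ⊢
    omega

lemma pairs_disjoint {r : ℕ} (hr : 1 ≤ r) (x : V) {z : V × V} {N : ℕ} (hz : z ∈ pairs N) :
    Disjoint {y | Near (2 * r) (gp r x z.1) y} {y | Near (2 * r) (gp r x z.2) y} := by
  rw [Set.disjoint_left]
  intro y h1 h2
  have h0 : (0 : ℤ) < r := by exact_mod_cast hr
  have h3 := (mem_pairs.mp hz).2
  simp only [Set.mem_setOf_eq, Near, gp, abs_le] at h1 h2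
  push_cast at h1 h2
  rcases h3 with h3 | h3 <;> rw [le_abs] at h3 <;> rcases h3 with h3 | h3 <;>
    nlinarith [h1.1.1, h1.1.2, h1.2.1, h1.2.2, h2.1.1, h2.1.2, h2.2.1, h2.2.2]

variable (ν : Measure (Fin 4)) [IsProbabilityMeasure ν]

lemma LocF.real_eq {p : (V → Fin 4) → Prop} [DecidablePred p] {S : Set V} (h : LocF p S) :
    (PP ν).real {ω | p ω} = ∫ ω, (if p ω then (1 : ℝ) else 0) ∂(PP ν) := by
  rw [← integral_indicator_one (measurableSet_setOf.mpr h.measurable)]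
  congr 1
  funext a
  simp [Set.indicator]

lemma LocF.real_inter {p q : (V → Fin 4) → Prop} {S T : Set V} (hp : LocF p S) (hq : LocF q T)
    (hST : Disjoint S T) :
    (PP ν).real {ω | p ω ∧ q ω} = (PP ν).real {ω | p ω} * (PP ν).real {ω | q ω} := by
  classical
  rw [hp.real_eq ν, hq.real_eq ν, ← LocF.integral_mul ν
    (hp.comp (fun a => if a then (1 : ℝ) else 0)) (hq.comp (fun a => if a then (1 : ℝ) else 0)) hST,
    ((hp.mono (Set.subset_univ _)).comp2 (hq.mono (Set.subset_univ _)) (fun a b => a ∧ b)).real_eq ν]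
  congr 1
  funext ω
  by_cases h1 : p ω <;> by_cases h2 : q ω <;> simp [h1, h2]

lemma real_exists_le {β : Type} (F : Finset β) (p : β → (V → Fin 4) → Prop) {q : ℝ}
    (h : ∀ b ∈ F, (PP ν).real {ω | p b ω} ≤ q) :
    (PP ν).real {ω | ∃ b ∈ F, p b ω} ≤ F.card * q := by
  have e : {ω | ∃ b ∈ F, p b ω} = ⋃ b ∈ F, {ω | p b ω} := by
    ext ω; simp
  rw [e]
  refine (measureReal_biUnion_finset_le _ _).trans ((Finset.sum_le_sum h).trans ?_)
  simp

lemma boot_step {r : ℕ} (hr : 1 ≤ r) {q : ℝ} (hq : 0 ≤ q)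
    (h : ∀ x, (PP ν).real {ρ | Esc ρ x r} ≤ q) (x : V) :
    (PP ν).real {ρ | Esc ρ x (8 * r)} ≤ 729 ^ 2 * (q * q) := by
  refine (measureReal_mono (fun ρ hρ => Esc.split hr hρ)).trans ?_
  refine (real_exists_le ν (pairs 13) (fun z ρ => Esc ρ (gp r x z.1) r ∧ Esc ρ (gp r x z.2) r)
    (q := q * q) ?_).trans ?_
  · intro z hz
    rw [LocF.real_inter ν (Esc.loc _ _) (Esc.loc _ _) (pairs_disjoint hr x hz)]
    exact mul_le_mul (h _) (h _) measureReal_nonneg hq
  · refine mul_le_mul_of_nonneg_right ?_ (mul_nonneg hq hq)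
    exact_mod_cast card_pairs 13

lemma boot {r : ℕ} (hr : 1 ≤ r) (h : ∀ x, (PP ν).real {ρ | Esc ρ x r} ≤ 1 / 2 / 729 ^ 2)
    (j : ℕ) (x : V) : (PP ν).real {ρ | Esc ρ x (8 ^ j * r)} ≤ (1 / 2) ^ (2 ^ j) / 729 ^ 2 := by
  induction j generalizing x with
  | zero => simpa using h x
  | succ j ih =>
    have h1 := boot_step ν (r := 8 ^ j * r) (Nat.mul_pos (by positivity) hr) (by positivity) ih x
    rw [pow_succ' 8 j, mul_assoc]
    refine h1.trans (le_of_eq ?_)
    rw [pow_succ 2 j, pow_mul]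
    field_simp

end Pool.Agent.Lib.MP_9d2e01_pr
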