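import Pool.Agent.Lib.MP_9d2e01_pr.Rotor

set_option autoImplicit false
set_option linter.unusedSectionVars false
set_option linter.deprecated false

namespace Pool.Agent.Lib.MP_9d2e01_pr

open Function Finset

/-- Number of exits in direction `d` among the first `k` exits from a site with initial rotor `r`. -/
def out (r d : Fin 4) (k : ℕ) : ℕ := ∑ j ∈ range k, if r + Fin.ofNat 4 j + 1 = d then 1 else 0

lemma out_succ (r d : Fin 4) (k : ℕ) :
    out r d (k + 1) = out r d k + if r + Fin.ofNat 4 k + 1 = d then 1 else 0 :=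
  Finset.sum_range_succ _ _

lemma out_zero (r d : Fin 4) : out r d 0 = 0 := by simp [out]

lemma out_mono (r d : Fin 4) {k l : ℕ} (h : k ≤ l) : out r d k ≤ out r d l :=
  Finset.sum_le_sum_of_subset (Finset.range_mono h)

lemma out_sum (r : Fin 4) (k : ℕ) : ∑ d, out r d k = k := by
  unfold out
  rw [Finset.sum_comm]
  simp

lemma ofNat_add_four (k : ℕ) : Fin.ofNat 4 (k + 4) = Fin.ofNat 4 k := by
  ext; simp

lemma out_four (r d : Fin 4) : out r d 4 = 1 := by
  revert r d; decide

lemma out_add_four (r d : Fin 4) (k : ℕ) : out r d (k + 4) = out r d k + 1 := by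
  induction k with
  | zero => simp [out_four, out_zero]
  | succ k ih =>
    rw [show k + 1 + 4 = (k + 4) + 1 by ring, out_succ, ih, out_succ, ofNat_add_four]; ring

lemma out_mul_four (r d : Fin 4) (j : ℕ) : out r d (4 * j) = j := by
  induction j with
  | zero => simp [out_zero]
  | succ j ih => rw [show 4 * (j + 1) = 4 * j + 4 by ring, out_add_four, ih]

lemma dir_inj {d e : Fin 4} (h : dir d = dir e) : d = e := by
  revert d e; decide

/-- Flow conservation. -/
lemma cnt_conserve (s : V × (V → Fin 4)) (t : ℕ) (x : V) :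
    cnt s (t + 1) x = (if s.1 = x then 1 else 0) +
      ∑ d, out (s.2 (x + dir d)) (d + 2) (cnt s t (x + dir d)) := by
  induction t with
  | zero => simp [cnt, pos, out_zero]
  | succ t ih =>
    rw [cnt_succ, ih, add_assoc]
    congr 1
    set y := pos s t with hy
    set e := s.2 y + Fin.ofNat 4 (cnt s t y) + 1 with he
    have hp : pos s (t + 1) = y + dir e := pos_succ s t
    have key : ∀ d : Fin 4, out (s.2 (x + dir d)) (d + 2) (cnt s (t + 1) (x + dir d)) =
        out (s.2 (x + dir d)) (d + 2) (cnt s t (x + dir d)) +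
          if d = e + 2 ∧ y + dir e = x then 1 else 0 := by
      intro d
      rw [cnt_succ, ← hy]
      by_cases h : y = x + dir d
      · rw [if_pos h, out_succ, ← h, ← he]
        congr 1
        refine if_congr ⟨fun h1 => ?_, fun h1 => ?_⟩ rfl rfl
        · refine ⟨?_, ?_⟩
          · rw [h1]; generalize d = c; fin_cases c <;> rfl
          · rw [h1, h, dir_rev]
        · rw [h1.1]; generalize e = c; fin_cases c <;> rfl
      · rw [if_neg h, add_zero, if_neg, add_zero]
        rintro ⟨h1, h2⟩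
        apply h
        rw [← h2, h1, dir_rev]
    simp only [key, Finset.sum_add_distrib, hp]
    congr 1
    by_cases h : y + dir e = x <;> simp [h]

/-- Balanced bound: every edge is used equally often from both ends. -/
def Bal (ρ : V → Fin 4) (w : V → ℕ) : Prop :=
  ∀ x d, out (ρ (x + dir d)) (d + 2) (w (x + dir d)) = out (ρ x) d (w x)

/-- Least action principle. -/
lemma least_action (s : V × (V → Fin 4)) {w : V → ℕ} (hw : Bal s.2 w) (t : ℕ)
    (h0 : cnt s t s.1 ≤ w s.1) (x : V) : cnt s t x ≤ w x := by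
  induction t generalizing x with
  | zero => simp [cnt]
  | succ t ih =>
    by_cases hx : s.1 = x
    · rw [← hx]; exact h0
    · have ih' := ih ((cnt_mono s (Nat.le_succ t) _).trans h0)
      rw [cnt_conserve, if_neg hx, zero_add, ← out_sum (s.2 x) (w x)]
      refine Finset.sum_le_sum (fun d _ => ?_)
      rw [← hw x d]
      exact out_mono _ _ (ih' _)

lemma pos_shift (s : V × (V → Fin 4)) (τ u : ℕ) : pos (step^[τ] s) u = pos s (τ + u) := by
  unfold pos
  rw [add_comm, iterate_add_apply]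

lemma cnt_shift (s : V × (V → Fin 4)) (τ u : ℕ) (x : V) :
    cnt s (τ + u) x = cnt s τ x + cnt (step^[τ] s) u x := by
  unfold cnt
  rw [Finset.sum_range_add]
  simp only [pos_shift]

lemma cnt_eq_zero (s : V × (V → Fin 4)) (t : ℕ) (y : V) (h : ∀ u < t, pos s u ≠ y) :
    cnt s t y = 0 := by
  unfold cnt
  exact Finset.sum_eq_zero (fun u hu => if_neg (h u (Finset.mem_range.mp hu)))

lemma cnt_le_four (s : V × (V → Fin 4)) (t : ℕ) (x : V) (d : Fin 4)
    (h : cnt s t (x + dir d) = 0) : cnt s t x ≤ 4 := by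
  cases t with
  | zero => simp [cnt]
  | succ t =>
    by_contra hc
    have h4 : 4 ≤ cnt s t x := by
      have := cnt_succ s t x
      split_ifs at this <;> omega
    rw [cnt_conserve] at h
    have h1 : ∑ e, out (s.2 (x + dir d + dir e)) (e + 2) (cnt s t (x + dir d + dir e)) = 0 := by
      omega
    have h2 := (Finset.sum_eq_zero_iff.mp h1) (d + 2) (Finset.mem_univ _)
    rw [dir_rev] at h2
    have h3 := out_mono (s.2 x) (d + 2 + 2) h4
    rw [out_four] at h3
    omega

/-- Visits to neighbouring sites differ by at most seven. -/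
lemma cnt_lip (s : V × (V → Fin 4)) (t : ℕ) (x : V) (d : Fin 4) :
    cnt s t x ≤ cnt s t (x + dir d) + 7 := by
  classical
  by_cases h : ∃ u, u < t ∧ pos s u = x + dir d
  · obtain ⟨τ, h1, h2⟩ : ∃ τ, (τ < t ∧ pos s τ = x + dir d) ∧ cnt s τ (x + dir d) = 0 :=
      ⟨Nat.find h, Nat.find_spec h, cnt_eq_zero s _ _
        (fun u hu he => Nat.find_min h hu ⟨hu.trans (Nat.find_spec h).1, he⟩)⟩
    have h3 := cnt_le_four s τ x d h2
    obtain ⟨u, rfl⟩ : ∃ u, t = τ + u := ⟨t - τ, by omega⟩
    rw [cnt_shift, cnt_shift, h2, zero_add]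
    set s' := step^[τ] s with hs'
    have h4 : s'.1 = x + dir d := h1.2
    set j := (cnt s' u (x + dir d) + 3) / 4 with hj
    have hb : Bal s'.2 (fun _ => 4 * j) := by
      intro y e
      rw [out_mul_four, out_mul_four]
    have h5 := least_action s' hb u (by rw [h4]; omega) x
    omega
  · push Not at h
    have := cnt_le_four s t x d (cnt_eq_zero s t _ h)
    omega

lemma cnt_lip2 (s : V × (V → Fin 4)) (t : ℕ) (a b : ℕ) :
    cnt s t 0 ≤ cnt s t ((a : ℤ), (b : ℤ)) + 7 * (a + b) := by
  have h1 : ∀ a : ℕ, cnt s t 0 ≤ cnt s t ((a : ℤ), 0) + 7 * a := by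
    intro a
    induction a with
    | zero => simp [Prod.zero_eq_mk]
    | succ a ih =>
      have := cnt_lip s t ((a : ℤ), 0) 1
      have e : (((a : ℤ), (0 : ℤ)) : V) + dir 1 = (((a + 1 : ℕ) : ℤ), 0) := by simp [dir]
      rw [e] at this
      omega
  induction b with
  | zero => simpa using h1 a
  | succ b ih =>
    have := cnt_lip s t ((a : ℤ), (b : ℤ)) 0
    have e : (((a : ℤ), (b : ℤ)) : V) + dir 0 = ((a : ℤ), ((b + 1 : ℕ) : ℤ)) := by simp [dir]
    rw [e] at this
    omega

lemma sum_cnt_le (s : V × (V → Fin 4)) (t : ℕ) (F : Finset V) : ∑ x ∈ F, cnt s t x ≤ t := by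
  classical
  unfold cnt
  rw [Finset.sum_comm]
  calc ∑ u ∈ range t, ∑ x ∈ F, (if pos s u = x then 1 else 0) ≤ ∑ u ∈ range t, 1 := by
        refine Finset.sum_le_sum (fun u _ => ?_)
        rw [Finset.sum_ite_eq]
        split_ifs <;> simp
    _ = t := by simp

/-- Many visits to the origin take a long time. -/
lemma cnt_cube (s : V × (V → Fin 4)) (t : ℕ) : cnt s t 0 ^ 3 ≤ 1568 * t := by
  classical
  set K := cnt s t 0 with hK
  set j := K / 28 with hj
  have h1 := sum_cnt_le s t ((range (j + 1) ×ˢ range (j + 1)).image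
    (fun z : ℕ × ℕ => (((z.1 : ℤ), (z.2 : ℤ)) : V)))
  rw [Finset.sum_image (by
    rintro ⟨a, b⟩ _ ⟨c, d⟩ _ h
    simp only [Prod.mk.injEq, Nat.cast_inj] at h ⊢
    exact h)] at h1
  have h2 : ∑ z ∈ range (j + 1) ×ˢ range (j + 1), (K - 14 * j) ≤
      ∑ z ∈ range (j + 1) ×ˢ range (j + 1), cnt s t (((z.1 : ℤ), (z.2 : ℤ)) : V) := by
    refine Finset.sum_le_sum (fun z hz => ?_)
    obtain ⟨ha, hb⟩ := Finset.mem_product.mp hz
    have := cnt_lip2 s t z.1 z.2
    rw [Finset.mem_range] at ha hb
    omega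
  simp only [Finset.sum_const, Finset.card_product, Finset.card_range, smul_eq_mul] at h2
  have h3 : K ≤ 28 * (j + 1) := by omega
  have h4 : K ≤ 2 * (K - 14 * j) := by omega
  calc K ^ 3 = K * K * K := by ring
    _ ≤ (28 * (j + 1)) * (28 * (j + 1)) * (2 * (K - 14 * j)) :=
        Nat.mul_le_mul (Nat.mul_le_mul h3 h3) h4
    _ = 1568 * ((j + 1) * (j + 1) * (K - 14 * j)) := by ring
    _ ≤ 1568 * t := Nat.mul_le_mul_left _ (h2.trans h1)

/-- A set of edges closed under reversal and under passing to earlier exits. -/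
structure Clo (ρ : V → Fin 4) (A : V → Fin 4 → Prop) : Prop where
  symm : ∀ x d, A x d → A (x + dir d) (d + 2)
  seg : ∀ x d, A x d → d ≠ ρ x + 1 → A x (d + 3)

/-- Sup-norm distance at most `D`. -/
def Near (D : ℕ) (x y : V) : Prop := |y.1 - x.1| ≤ D ∧ |y.2 - x.2| ≤ D

/-- The north and west edges at `x` lie in a closed set within distance `D`. -/
def Good (ρ : V → Fin 4) (D : ℕ) (x : V) : Prop :=
  ∃ A, Clo ρ A ∧ A x 0 ∧ A x 3 ∧ ∀ y e, A y e → Near D x y

lemma out_seg (r : Fin 4) (A : Fin 4 → Prop) [DecidablePred A]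
    (h : ∀ d, A d → d ≠ r + 1 → A (d + 3)) (d : Fin 4) :
    out r d (Finset.univ.filter A).card = if A d then 1 else 0 := by
  have h0 := h 0
  have h1 := h 1
  have h2 := h 2
  have h3 := h 3
  rw [Finset.card_filter, Fin.sum_univ_four]
  have e0 : (0 : Fin 4) + 3 = 3 := rfl
  have e1 : (1 : Fin 4) + 3 = 0 := rfl
  have e2 : (2 : Fin 4) + 3 = 1 := rfl
  have e3 : (3 : Fin 4) + 3 = 2 := rfl
  rw [e0] at h0; rw [e1] at h1; rw [e2] at h2; rw [e3] at h3
  by_cases a0 : A 0 <;> by_cases a1 : A 1 <;> by_cases a2 : A 2 <;> by_cases a3 : A 3 <;>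
    fin_cases r <;> fin_cases d <;> simp_all <;> decide

lemma Good.all {ρ : V → Fin 4} {D : ℕ} {x : V} (h0 : Good ρ D x) (h1 : Good ρ D (x + dir 1))
    (h2 : Good ρ D (x + dir 2)) :
    ∃ A, Clo ρ A ∧ (∀ d, A x d) ∧ ∀ y e, A y e → Near (D + 1) x y := by
  obtain ⟨A, a1, a2, a3, a4⟩ := h0
  obtain ⟨B, b1, -, b3, b4⟩ := h1
  obtain ⟨C, c1, c2, -, c4⟩ := h2
  refine ⟨fun y e => A y e ∨ B y e ∨ C y e, ⟨?_, ?_⟩, ?_, ?_⟩
  · rintro y e (h | h | h)
    · exact Or.inl (a1.symm _ _ h)
    · exact Or.inr (Or.inl (b1.symm _ _ h))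
    · exact Or.inr (Or.inr (c1.symm _ _ h))
  · rintro y e (h | h | h) he
    · exact Or.inl (a1.seg _ _ h he)
    · exact Or.inr (Or.inl (b1.seg _ _ h he))
    · exact Or.inr (Or.inr (c1.seg _ _ h he))
  · intro d
    fin_cases d
    · exact Or.inl a2
    · have := b1.symm _ _ b3
      have e := dir_rev x 1
      change x + dir 1 + dir 3 = x at e
      rw [e] at this
      exact Or.inr (Or.inl this)
    · have := c1.symm _ _ c2
      have e := dir_rev x 2
      change x + dir 2 + dir 0 = x at e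
      rw [e] at this
      exact Or.inr (Or.inr this)
    · exact Or.inl a3
  · rintro y e (h | h | h)
    · have := a4 _ _ h
      simp only [Near, abs_le] at this ⊢
      push_cast; omega
    · have := b4 _ _ h
      simp only [Near, abs_le, dir] at this ⊢
      simp at this
      push_cast; omega
    · have := c4 _ _ h
      simp only [Near, abs_le, dir] at this ⊢
      simp at this
      push_cast; omega

/-- Nested closed sets give a balanced bound. -/
lemma nested {ρ : V → Fin 4} {D : ℕ} (k : ℕ)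
    (h : ∀ x, Near (k * D) 0 x → ∃ A, Clo ρ A ∧ (∀ d, A x d) ∧ ∀ y e, A y e → Near D x y) :
    ∃ w, Bal ρ w ∧ w 0 = 4 * k ∧ ∀ x, w x ≠ 0 → Near (k * D) 0 x := by
  classical
  induction k with
  | zero => exact ⟨fun _ => 0, fun x d => by simp [out_zero], rfl, fun x hx => absurd rfl hx⟩
  | succ k ih =>
    have hm : ∀ x, Near (k * D) 0 x → Near ((k + 1) * D) 0 x := by
      intro x hx
      simp only [Near, abs_le] at hx ⊢
      push_cast at hx ⊢
      have : (0 : ℤ) ≤ D := Int.natCast_nonneg D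
      rw [add_mul, one_mul]
      omega
    obtain ⟨w, w1, w2, w3⟩ := ih (fun x hx => h x (hm x hx))
    choose A a1 a2 a3 using fun x (hx : Near (k * D) 0 x) => h x (hm x hx)
    set J : V → Fin 4 → Prop := fun y e => ∃ x, ∃ hx : Near (k * D) 0 x, A x hx y e with hJ
    have J1 : ∀ y e, J y e → J (y + dir e) (e + 2) := by
      rintro y e ⟨x, hx, h1⟩
      exact ⟨x, hx, (a1 x hx).symm _ _ h1⟩
    have J2 : ∀ y e, J y e → e ≠ ρ y + 1 → J y (e + 3) := by
      rintro y e ⟨x, hx, h1⟩ he
      exact ⟨x, hx, (a1 x hx).seg _ _ h1 he⟩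
    have J3 : ∀ y e, J (y + dir e) (e + 2) ↔ J y e := by
      intro y e
      refine ⟨fun h1 => ?_, J1 y e⟩
      have := J1 _ _ h1
      have e2 : e + 2 + 2 = e := by generalize e = c; fin_cases c <;> rfl
      rwa [dir_rev, e2] at this
    have J4 : ∀ y, Near (k * D) 0 y → (Finset.univ.filter (J y)).card = 4 := by
      intro y hy
      rw [Finset.filter_true_of_mem (fun e _ => ⟨y, hy, a2 y hy e⟩)]
      simp
    have key : ∀ y e, out (ρ y) e (w y + (Finset.univ.filter (J y)).card) =
        out (ρ y) e (w y) + if J y e then 1 else 0 := by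
      intro y e
      by_cases hy : Near (k * D) 0 y
      · rw [J4 y hy, out_add_four, if_pos ⟨y, hy, a2 y hy e⟩]
      · have : w y = 0 := by
          by_contra hc
          exact hy (w3 y hc)
        rw [this, zero_add, out_zero, zero_add, out_seg _ _ (J2 y)]
    refine ⟨fun y => w y + (Finset.univ.filter (J y)).card, ?_, ?_, ?_⟩
    · intro y e
      simp only [key, w1 y e, J3]
    · have h0 : Near (k * D) 0 0 := by
        simp only [Near, sub_self, abs_zero]
        exact ⟨Int.natCast_nonneg _, Int.natCast_nonneg _⟩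
      simp only [w2, J4 0 h0]; ring
    · intro y hy
      by_cases hw : w y = 0
      · have : (Finset.univ.filter (J y)).card ≠ 0 := by
          intro hc; apply hy; simp only [hw, hc]
        obtain ⟨e, he⟩ := Finset.card_ne_zero.mp this
        obtain ⟨x, hx, h1⟩ := (Finset.mem_filter.mp he).2
        have h2 := a3 x hx _ _ h1
        simp only [Near, abs_le] at hx h2 ⊢
        push_cast at hx h2 ⊢
        rw [add_mul, one_mul]
        simp only [Prod.fst_zero, Prod.snd_zero] at hx ⊢
        omega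
      · exact hm y (w3 y hw)

/-- Number of distinct sites visited in the first `n` steps. -/
def rng (ρ : V → Fin 4) (n : ℕ) : ℕ := ((Finset.range (n + 1)).image (walk ρ)).card

/-- Deterministic range bound. -/
lemma rng_le {ρ : V → Fin 4} {D : ℕ} (k n : ℕ)
    (h : ∀ x, Near (k * D) 0 x → ∃ A, Clo ρ A ∧ (∀ d, A x d) ∧ ∀ y e, A y e → Near D x y)
    (hk : cnt (0, ρ) (n + 1) 0 ≤ 4 * k) : rng ρ n ≤ (2 * (k * D) + 1) ^ 2 := by
  classical
  obtain ⟨w, w1, w2, w3⟩ := nested (ρ := ρ) (D := D) k h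
  set r : ℤ := ((k * D : ℕ) : ℤ) with hr
  have hsub : (Finset.range (n + 1)).image (walk ρ) ⊆ Finset.Icc (-r) r ×ˢ Finset.Icc (-r) r := by
    intro x hx
    obtain ⟨u, hu, rfl⟩ := Finset.mem_image.mp hx
    have h1 := least_action (0, ρ) w1 (n + 1) (by simpa [w2] using hk) (walk ρ u)
    have h2 := cnt_mono (0, ρ) (show u + 1 ≤ n + 1 from Finset.mem_range.mp hu) (walk ρ u)
    have h3 := cnt_succ (0, ρ) u (walk ρ u)
    rw [if_pos (show pos (0, ρ) u = walk ρ u from rfl)] at h3
    have h4 := w3 (walk ρ u) (by omega)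
    simp only [Near, abs_le, Prod.fst_zero, Prod.snd_zero, sub_zero] at h4
    simp only [Finset.mem_product, Finset.mem_Icc]
    exact h4
  have h5 := Finset.card_le_card hsub
  rw [Finset.card_product, Int.card_Icc] at h5
  have e : (r + 1 - -r).toNat = 2 * (k * D) + 1 := by omega
  rw [e] at h5
  rw [sq]; exact h5

end Pool.Agent.Lib.MP_9d2e01_pr
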