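import Pool.Agent.Lib.MP_9d2e01_pr.Two.Main

set_option autoImplicit false
set_option linter.unusedSectionVars false
set_option linter.deprecated false

namespace Pool.Agent.Lib.MP_9d2e01_pr

open MeasureTheory ProbabilityTheory Finset Relation Filter

lemma exists_scale (T : ℕ) {δ κ : ℝ} (hδ : 0 < δ) (hκ : 0 < κ) :
    ∃ n : ℕ, (2 * ((((T + 1) * n + 1 + 2 * n * (T + 1) + n + 2 : ℕ) : ℝ) + 2) + 1) ^ 2 *
      (4 * Real.exp (1 - δ * n)) ≤ κ := by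
  set c : ℝ := 6 * T + 19 with hc
  have c0 : 0 < c := by positivity
  obtain ⟨n, hn⟩ := exists_nat_ge (max 1 (c ^ 2 * (4 * Real.exp 1) * 6 / (δ ^ 3 * κ)))
  have n1 : (1 : ℝ) ≤ n := (le_max_left _ _).trans hn
  have n2 := (le_max_right _ _).trans hn
  refine ⟨n, ?_⟩
  have h1 : 2 * ((((T + 1) * n + 1 + 2 * n * (T + 1) + n + 2 : ℕ) : ℝ) + 2) + 1 ≤ c * n := by
    push_cast; rw [hc]; nlinarith
  have h2 := Real.pow_div_factorial_le_exp (δ * n) (by positivity) 3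
  have h3 : ((Nat.factorial 3 : ℕ) : ℝ) = 6 := by norm_num [Nat.factorial]
  rw [h3] at h2
  rw [div_le_iff₀ (by positivity)] at n2
  have h4 : Real.exp (1 - δ * n) = Real.exp 1 / Real.exp (δ * n) := Real.exp_sub _ _
  have h5 : (2 * ((((T + 1) * n + 1 + 2 * n * (T + 1) + n + 2 : ℕ) : ℝ) + 2) + 1) ^ 2 ≤
      (c * n) ^ 2 := pow_le_pow_left₀ (by positivity) h1 2
  refine (mul_le_mul_of_nonneg_right h5 (by positivity)).trans ?_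
  rw [h4, ← mul_div_assoc, ← mul_div_assoc, div_le_iff₀ (Real.exp_pos _)]
  refine le_trans ?_ (mul_le_mul_of_nonneg_left h2 hκ.le)
  have h6 := mul_le_mul_of_nonneg_right n2 (show (0 : ℝ) ≤ (n : ℝ) ^ 2 / 6 by positivity)
  calc (c * n) ^ 2 * (4 * Real.exp 1) = c ^ 2 * (4 * Real.exp 1) * 6 * ((n : ℝ) ^ 2 / 6) := by ring
    _ ≤ n * (δ ^ 3 * κ) * ((n : ℝ) ^ 2 / 6) := h6
    _ = κ * ((δ * n) ^ 3 / 6) := by ring

/-- The finite size criterion holds near the two point laws. -/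
lemma criterion (p : ℝ) (hp : 1 / 3 < p) : ∃ ε : ℝ, 0 < ε ∧ ∃ r : ℕ, 1 ≤ r ∧
    ∀ (ν : Measure (Fin 4)) [IsProbabilityMeasure ν], p ≤ ν.real {0} → p ≤ ν.real {2} →
      ν.real {1} + ν.real {3} ≤ ε → ∀ x, (PP ν).real {ρ | Esc ρ x r} ≤ 1 / 2 / 729 ^ 2 := by
  set p' := min p (1 / 2) with hp'
  have q1 : 1 / 3 < p' := lt_min hp (by norm_num)
  have q2 : p' < 1 := (min_le_right _ _).trans_lt (by norm_num)
  obtain ⟨T, hT⟩ := (gm_eventually q1 q2).exists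
  set γ := (gm p' (T + 1) - 1 / 2) / 2 with hγ
  have γ0 : 0 < γ := by rw [hγ]; linarith
  obtain ⟨n, hn⟩ := exists_scale T (δ := γ ^ 2 / (2 * (T + 1) ^ 2)) (κ := 1 / 4 / 729 ^ 2)
    (by positivity) (by positivity)
  set D : ℕ := (T + 1) * n + 1 + 2 * n * (T + 1) + n + 2 with hD
  refine ⟨1 / 4 / 729 ^ 2 / ((2 * ((D : ℝ) + 2) + 1) ^ 2 * (2 * D + 1) ^ 2), by positivity,
    D + 1, by omega, ?_⟩
  intro ν _ h0 h2 hε x
  have g0 := gm_mono (by linarith : 0 ≤ p') ((min_le_left _ _).trans h0) (T + 1)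
  have g2 := gm_mono (by linarith : 0 ≤ p') ((min_le_left _ _).trans h2) (T + 1)
  have h3 := real_exists_le ν (box (D + 2) x) (fun y ρ => ¬ Good ρ D y)
    (fun y _ => not_good_le ν γ0 (by rw [hγ]; linarith) (by rw [hγ]; linarith) hε n y)
  refine le_trans (measureReal_mono ?_) (h3.trans ?_)
  · intro ρ hρ
    by_contra hc
    simp only [Set.mem_setOf_eq, not_exists, not_and, not_not] at hc
    exact not_esc_of_good (fun y hy => hc y (mem_box.mpr hy)) hρ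
  · rw [card_box]
    have e : ((T : ℝ) + 1) * n + 1 + 2 * n * (T + 1) + n + 2 = D := by rw [hD]; push_cast; ring
    rw [e, mul_add]
    push_cast
    have e2 : (2 * ((D : ℝ) + 2) + 1) ^ 2 * ((2 * D + 1) ^ 2 *
        (1 / 4 / 729 ^ 2 / ((2 * ((D : ℝ) + 2) + 1) ^ 2 * (2 * D + 1) ^ 2))) = 1 / 4 / 729 ^ 2 := by
      field_simp
    rw [e2]
    linarith

variable (ν : Measure (Fin 4)) [IsProbabilityMeasure ν]

lemma seven_le (i : ℕ) : 7 * i ≤ 2 * 2 ^ i + 6 := by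
  induction i with
  | zero => simp
  | succ i ih =>
    rcases Nat.lt_or_ge i 2 with h | h
    · interval_cases i <;> norm_num
    · have : 2 ^ 2 ≤ 2 ^ i := Nat.pow_le_pow_right (by norm_num) h
      rw [pow_succ]; omega

lemma level_bound {r : ℕ} (hr : 1 ≤ r)
    (h : ∀ x, (PP ν).real {ρ | Esc ρ x r} ≤ 1 / 2 / 729 ^ 2) (i : ℕ) :
    (PP ν).real {ρ | ∃ x ∈ box (2 ^ 2 ^ i * (2 * (8 ^ (i + 2) * r))) 0,
      Esc ρ x (8 ^ (i + 2) * r)} ≤ (5 * 64 * 8 * r) ^ 2 * (1 / 2) ^ i := by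
  refine (real_exists_le ν _ (fun x ρ => Esc ρ x (8 ^ (i + 2) * r))
    (fun x _ => boot ν hr h (i + 2) x)).trans ?_
  rw [card_box]
  have h1 : 2 * (2 ^ 2 ^ i * (2 * (8 ^ (i + 2) * r))) + 1 ≤ 5 * 64 * r * (2 ^ 2 ^ i * 8 ^ i) := by
    have : 1 ≤ 2 ^ 2 ^ i * (8 ^ i * r) := Nat.mul_pos (by positivity) (Nat.mul_pos (by positivity) hr)
    rw [pow_add]
    nlinarith
  have h2 : (2 ^ 2 ^ i * 8 ^ i) ^ 2 * 2 ^ i ≤ 64 * 2 ^ 2 ^ (i + 2) := by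
    have e1 : (2 ^ 2 ^ i * 8 ^ i) ^ 2 * 2 ^ i = 2 ^ (2 * 2 ^ i + 7 * i) := by
      rw [show (8 : ℕ) = 2 ^ 3 by norm_num, ← pow_mul, ← pow_add, ← pow_mul, ← pow_add]
      congr 1; ring
    have e2 : 64 * 2 ^ 2 ^ (i + 2) = 2 ^ (6 + 2 ^ (i + 2)) := by rw [pow_add 2 6]; norm_num
    rw [e1, e2]
    refine Nat.pow_le_pow_right (by norm_num) ?_
    have := seven_le i
    rw [pow_add]; omega
  have h3 : (2 * (2 ^ 2 ^ i * (2 * (8 ^ (i + 2) * r))) + 1) ^ 2 * 2 ^ i ≤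
      (5 * 64 * 8 * r) ^ 2 * 2 ^ 2 ^ (i + 2) := by
    calc _ ≤ (5 * 64 * r * (2 ^ 2 ^ i * 8 ^ i)) ^ 2 * 2 ^ i :=
          Nat.mul_le_mul_right _ (Nat.pow_le_pow_left h1 2)
      _ = (5 * 64 * r) ^ 2 * ((2 ^ 2 ^ i * 8 ^ i) ^ 2 * 2 ^ i) := by ring
      _ ≤ (5 * 64 * r) ^ 2 * (64 * 2 ^ 2 ^ (i + 2)) := Nat.mul_le_mul_left _ h2
      _ = _ := by ring
  generalize (2 * (2 ^ 2 ^ i * (2 * (8 ^ (i + 2) * r))) + 1) ^ 2 = N at h3 ⊢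
  generalize 2 ^ (i + 2) = m at h3 ⊢
  have h4 : (N : ℝ) * 2 ^ i ≤ (5 * 64 * 8 * r) ^ 2 * 2 ^ m := by exact_mod_cast h3
  have h5 : (1 / 2 : ℝ) ^ m / 729 ^ 2 ≤ (1 / 2) ^ m := div_le_self (by positivity) (by norm_num)
  refine (mul_le_mul_of_nonneg_left h5 (Nat.cast_nonneg N)).trans ?_
  rw [one_div_pow, one_div_pow, mul_one_div, mul_one_div, div_le_div_iff₀ (by positivity)
    (by positivity)]
  exact h4

lemma ae_levels {r : ℕ} (hr : 1 ≤ r)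
    (h : ∀ x, (PP ν).real {ρ | Esc ρ x r} ≤ 1 / 2 / 729 ^ 2) :
    ∀ᵐ ρ ∂(PP ν), ∀ᶠ i in atTop, ∀ x, Near (2 ^ 2 ^ i * (2 * (8 ^ (i + 2) * r))) 0 x →
      ¬ Esc ρ x (8 ^ (i + 2) * r) := by
  have hs : Summable (fun i : ℕ => ((5 * 64 * 8 * r : ℝ)) ^ 2 * (1 / 2) ^ i) :=
    summable_geometric_two.mul_left _
  have h1 : (∑' i, (PP ν) {ρ | ∃ x ∈ box (2 ^ 2 ^ i * (2 * (8 ^ (i + 2) * r))) 0,
      Esc ρ x (8 ^ (i + 2) * r)}) ≠ ⊤ := by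
    refine ne_top_of_le_ne_top hs.tsum_ofReal_ne_top (ENNReal.tsum_le_tsum (fun i => ?_))
    rw [← ofReal_measureReal (measure_ne_top _ _)]
    exact ENNReal.ofReal_le_ofReal (level_bound ν hr h i)
  filter_upwards [ae_eventually_notMem h1] with ρ hρ
  filter_upwards [hρ] with i hi x hx hE
  exact hi ⟨x, mem_box.mpr hx, hE⟩

lemma rng_nat {ρ : V → Fin 4} {r i0 : ℕ} (hr : 1 ≤ r)
    (h : ∀ i ≥ i0, ∀ x, Near (2 ^ 2 ^ i * (2 * (8 ^ (i + 2) * r))) 0 x →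
      ¬ Esc ρ x (8 ^ (i + 2) * r)) (n : ℕ) (hn : 1 ≤ n) :
    ∃ k : ℕ, k ^ 3 ≤ 3136 * n ∧
      rng ρ n ≤ (3 * (1024 * r * 8 ^ i0)) ^ 2 * k ^ 2 * (Nat.log 2 n + 2) ^ 6 := by
  set k := cnt (0, ρ) (n + 1) 0 with hk
  have k1 : k ^ 3 ≤ 1568 * (n + 1) := cnt_cube _ _
  have k2 : k ≤ n + 1 := by simpa using sum_cnt_le (0, ρ) (n + 1) {0}
  have k3 : 1 ≤ k := by
    have := cnt_mono (0, ρ) (show 0 + 1 ≤ n + 1 by omega) 0
    rw [cnt_succ, if_pos (show pos (0, ρ) 0 = 0 from rfl)] at this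
    omega
  refine ⟨k, by omega, ?_⟩
  set b := Nat.log 2 n + 2 with hb
  set i1 := Nat.log 2 b + 1 with hi1
  have b1 : b < 2 ^ i1 := Nat.lt_pow_succ_log_self (by norm_num) b
  have b2 : 2 ^ i1 ≤ 2 * b := by
    have := Nat.pow_log_le_self 2 (show b ≠ 0 by omega)
    rw [hi1, pow_succ]; omega
  have b3 : n < 2 ^ (Nat.log 2 n + 1) := Nat.lt_pow_succ_log_self (by norm_num) n
  have b4 : k ≤ 2 ^ 2 ^ (i0 + i1) := by
    have h1 : 2 ^ i1 ≤ 2 ^ (i0 + i1) := Nat.pow_le_pow_right (by norm_num) (by omega)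
    have h2 : 2 ^ (Nat.log 2 n + 1) ≤ 2 ^ 2 ^ (i0 + i1) :=
      Nat.pow_le_pow_right (by norm_num) (by omega)
    omega
  set D := 2 * (8 ^ (i0 + i1 + 2) * r) with hD
  have h1 := rng_le (ρ := ρ) (D := D) k n (fun x hx => clo_of_not_esc (h (i0 + i1) (by omega) x (by
    have : ((k * D : ℕ) : ℤ) ≤ ((2 ^ 2 ^ (i0 + i1) * D : ℕ) : ℤ) := by
      exact_mod_cast Nat.mul_le_mul_right D b4
    exact ⟨hx.1.trans this, hx.2.trans this⟩))) (by omega)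
  have D1 : 1 ≤ D := Nat.mul_pos (by norm_num) (Nat.mul_pos (by positivity) hr)
  have D2 : D ≤ 1024 * r * 8 ^ i0 * b ^ 3 := by
    have e : 8 ^ i1 = (2 ^ i1) ^ 3 := by
      rw [← pow_mul, mul_comm, pow_mul]; norm_num
    have := Nat.pow_le_pow_left b2 3
    calc D = 128 * r * 8 ^ i0 * 8 ^ i1 := by rw [hD]; ring
      _ ≤ 128 * r * 8 ^ i0 * (2 * b) ^ 3 := Nat.mul_le_mul_left _ (e ▸ this)
      _ = _ := by ring
  have D3 : 2 * (k * D) + 1 ≤ 3 * (k * (1024 * r * 8 ^ i0 * b ^ 3)) := by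
    have := Nat.mul_le_mul_left k D2
    have : 1 ≤ k * D := Nat.mul_pos k3 D1
    omega
  refine h1.trans ((Nat.pow_le_pow_left D3 2).trans (le_of_eq ?_))
  ring

lemma rng_real {R k n : ℕ} {c : ℕ} (hn : 2 ≤ n) (h1 : k ^ 3 ≤ 3136 * n)
    (h2 : R ≤ c * k ^ 2 * (Nat.log 2 n + 2) ^ 6) :
    (R : ℝ) ≤ c * 3136 * 6 ^ 6 * (n : ℝ) ^ (2 / 3 : ℝ) * Real.log n ^ 6 := by
  have n0 : (0 : ℝ) < n := by positivity
  have l2 : (1 / 2 : ℝ) ≤ Real.log 2 := by linarith [Real.log_two_gt_d9]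
  have l3 : Real.log 2 ≤ Real.log n := Real.log_le_log (by norm_num) (by exact_mod_cast hn)
  have l4 : (Nat.log 2 n : ℝ) * Real.log 2 ≤ Real.log n := by
    rw [← Real.log_pow]
    refine Real.log_le_log (by positivity) ?_
    exact_mod_cast Nat.pow_log_le_self 2 (show n ≠ 0 by omega)
  have l5 : ((Nat.log 2 n : ℝ) + 2) ≤ 6 * Real.log n := by
    have : (0 : ℝ) ≤ Nat.log 2 n := Nat.cast_nonneg _
    nlinarith
  have k1 : (k : ℝ) ^ 2 ≤ 3136 * (n : ℝ) ^ (2 / 3 : ℝ) := by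
    refine le_of_pow_le_pow_left₀ (n := 3) (by norm_num) (by positivity) ?_
    have e : (3136 * (n : ℝ) ^ (2 / 3 : ℝ)) ^ 3 = 3136 ^ 3 * (n : ℝ) ^ 2 := by
      rw [mul_pow, ← Real.rpow_natCast ((n : ℝ) ^ (2 / 3 : ℝ)), ← Real.rpow_mul n0.le]
      norm_num
    have h3 : (k : ℝ) ^ 3 ≤ 3136 * n := by exact_mod_cast h1
    have h4 : ((k : ℝ) ^ 3) ^ 2 ≤ (3136 * n) ^ 2 := pow_le_pow_left₀ (by positivity) h3 2
    rw [e]
    nlinarith [sq_nonneg (n : ℝ)]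
  have h3 : (R : ℝ) ≤ c * (k : ℝ) ^ 2 * ((Nat.log 2 n : ℝ) + 2) ^ 6 := by exact_mod_cast h2
  have h4 : ((Nat.log 2 n : ℝ) + 2) ^ 6 ≤ (6 * Real.log n) ^ 6 :=
    pow_le_pow_left₀ (by positivity) l5 6
  calc (R : ℝ) ≤ c * (k : ℝ) ^ 2 * ((Nat.log 2 n : ℝ) + 2) ^ 6 := h3
    _ ≤ c * (3136 * (n : ℝ) ^ (2 / 3 : ℝ)) * (6 * Real.log n) ^ 6 :=
        mul_le_mul (mul_le_mul_of_nonneg_left k1 (Nat.cast_nonneg c)) h4 (by positivity)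
          (by positivity)
    _ = _ := by ring

/-- The finite size criterion gives the range bound. -/
theorem range_of_criterion {r : ℕ} (hr : 1 ≤ r)
    (h : ∀ x, (PP ν).real {ρ | Esc ρ x r} ≤ 1 / 2 / 729 ^ 2) :
    ∀ᵐ ρ ∂(PP ν), ∃ C : ℝ, ∀ n : ℕ, 2 ≤ n →
      (rng ρ n : ℝ) ≤ C * (n : ℝ) ^ (2 / 3 : ℝ) * Real.log n ^ 6 := by
  filter_upwards [ae_levels ν hr h] with ρ hρ
  obtain ⟨i0, hi⟩ := eventually_atTop.mp hρ
  refine ⟨(((3 * (1024 * r * 8 ^ i0)) ^ 2 : ℕ) : ℝ) * 3136 * 6 ^ 6, fun n hn => ?_⟩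
  obtain ⟨k, k1, k2⟩ := rng_nat hr hi n (by omega)
  exact rng_real hn k1 k2

end Pool.Agent.Lib.MP_9d2e01_pr
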