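import Pool.Agent.Lib.MP_9d2e01_pr.Two.Det

set_option autoImplicit false
set_option linter.unusedSectionVars false
set_option linter.deprecated false

namespace Pool.Agent.Lib.MP_9d2e01_pr

open Function Finset

/-- The site with index `i` on the diagonal of level `l`. -/
def vtx (l i : ℤ) : V := (i, i + l)

/-- Admissible step of the left boundary across row `k`. -/
def LA (ρ : V → Fin 4) (k a0 a1 : ℤ) : Prop :=
  (∀ j, ρ (vtx k j) = 2 → a0 ≤ j + 1 → a1 ≤ j) ∧ (∀ j, ρ (vtx k j) = 0 → a1 ≤ j → a0 ≤ j)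

/-- Admissible step of the right boundary across row `k`. -/
def RA (ρ : V → Fin 4) (k b0 b1 : ℤ) : Prop :=
  (∀ j, ρ (vtx k j) = 2 → j + 1 ≤ b0 → j + 1 ≤ b1) ∧ (∀ j, ρ (vtx k j) = 0 → j ≤ b1 → j + 1 ≤ b0)

/-- West edges of the lens. -/
def Wn (fa fb : ℤ → ℤ) (k0 K l i : ℤ) : Prop := k0 ≤ l ∧ l ≤ K ∧ fa l ≤ i ∧ i ≤ fb l

/-- Edges of the lens. -/
def Reg (fa fb : ℤ → ℤ) (k0 K : ℤ) (y : V) (e : Fin 4) : Prop :=
  (e = 0 → Wn fa fb k0 K (y.2 - y.1) y.1 ∧ Wn fa fb k0 K (y.2 - y.1) (y.1 + 1)) ∧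
  (e = 1 → Wn fa fb k0 K (y.2 - y.1 - 1) (y.1 + 1)) ∧
  (e = 2 → Wn fa fb k0 K (y.2 - y.1 - 1) y.1 ∧ Wn fa fb k0 K (y.2 - y.1 - 1) (y.1 + 1)) ∧
  (e = 3 → Wn fa fb k0 K (y.2 - y.1) y.1)

lemma reg0 {fa fb : ℤ → ℤ} {k0 K : ℤ} {y : V} : Reg fa fb k0 K y 0 ↔
    Wn fa fb k0 K (y.2 - y.1) y.1 ∧ Wn fa fb k0 K (y.2 - y.1) (y.1 + 1) := by simp [Reg]
lemma reg1 {fa fb : ℤ → ℤ} {k0 K : ℤ} {y : V} : Reg fa fb k0 K y 1 ↔
    Wn fa fb k0 K (y.2 - y.1 - 1) (y.1 + 1) := by simp [Reg]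
lemma reg2 {fa fb : ℤ → ℤ} {k0 K : ℤ} {y : V} : Reg fa fb k0 K y 2 ↔
    Wn fa fb k0 K (y.2 - y.1 - 1) y.1 ∧ Wn fa fb k0 K (y.2 - y.1 - 1) (y.1 + 1) := by simp [Reg]
lemma reg3 {fa fb : ℤ → ℤ} {k0 K : ℤ} {y : V} : Reg fa fb k0 K y 3 ↔
    Wn fa fb k0 K (y.2 - y.1) y.1 := by simp [Reg]

lemma fin4_cases (e : Fin 4) : e = 0 ∨ e = 1 ∨ e = 2 ∨ e = 3 := by revert e; decide

lemma lens_clo {ρ : V → Fin 4} {fa fb : ℤ → ℤ} {k0 K : ℤ}
    (h2 : ∀ y e, Reg fa fb k0 K y e → ρ y = 0 ∨ ρ y = 2)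
    (hL : ∀ k, k0 < k → k ≤ K → LA ρ k (fa (k - 1)) (fa k))
    (hR : ∀ k, k0 < k → k ≤ K → RA ρ k (fb (k - 1)) (fb k))
    (ht : fb K < fa K) (hb : fb k0 < fa k0) : Clo ρ (Reg fa fb k0 K) := by
  constructor
  · rintro ⟨p, q⟩ e h
    rcases fin4_cases e with rfl | rfl | rfl | rfl
    · change Reg fa fb k0 K _ 2
      rw [reg0] at h; rw [reg2]
      have e1 : (((p, q) : V) + dir 0) = (p, q + 1) := by simp [dir]
      rw [e1]
      have e2 : q + 1 - p - 1 = q - p := by ring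
      simpa only [e2] using h
    · change Reg fa fb k0 K _ 3
      rw [reg1] at h; rw [reg3]
      have e1 : (((p, q) : V) + dir 1) = (p + 1, q) := by simp [dir]
      rw [e1]
      have e2 : q - (p + 1) = q - p - 1 := by ring
      simpa only [e2] using h
    · change Reg fa fb k0 K _ 0
      rw [reg2] at h; rw [reg0]
      have e1 : (((p, q) : V) + dir 2) = (p, q - 1) := by simp [dir, sub_eq_add_neg]
      rw [e1]
      have e2 : q - 1 - p = q - p - 1 := by ring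
      simpa only [e2] using h
    · change Reg fa fb k0 K _ 1
      rw [reg3] at h; rw [reg1]
      have e1 : (((p, q) : V) + dir 3) = (p - 1, q) := by simp [dir, sub_eq_add_neg]
      rw [e1]
      have e2 : q - (p - 1) - 1 = q - p := by ring
      have e3 : p - 1 + 1 = p := by ring
      simpa only [e2, e3] using h
  · rintro ⟨p, q⟩ e h he
    have ev : vtx (q - p) p = (p, q) := by simp [vtx]
    have h2' := h2 _ _ h
    rcases fin4_cases e with rfl | rfl | rfl | rfl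
    · change Reg fa fb k0 K _ 3
      rw [reg0] at h; rw [reg3]
      exact h.1
    · change Reg fa fb k0 K _ 0
      rw [reg1] at h; rw [reg0]
      have hs : ρ (vtx (q - p) p) = 2 := by
        rw [ev]
        rcases h2' with h3 | h3
        · rw [h3] at he; exact absurd rfl he
        · exact h3
      obtain ⟨w1, w2, w3, w4⟩ := h
      dsimp only at w1 w2 w3 w4 ⊢
      have hK : q - p - 1 ≠ K := by
        intro hc; rw [hc] at w3 w4; omega
      have l1 := (hL (q - p) (by omega) (by omega)).1 p hs w3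
      have r1 := (hR (q - p) (by omega) (by omega)).1 p hs w4
      exact ⟨⟨by omega, by omega, l1, by omega⟩, ⟨by omega, by omega, by omega, r1⟩⟩
    · change Reg fa fb k0 K _ 1
      rw [reg2] at h; rw [reg1]
      exact h.2
    · change Reg fa fb k0 K _ 2
      rw [reg3] at h; rw [reg2]
      have hs : ρ (vtx (q - p) p) = 0 := by
        rw [ev]
        rcases h2' with h3 | h3
        · exact h3
        · rw [h3] at he; exact absurd rfl he
      obtain ⟨w1, w2, w3, w4⟩ := h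
      dsimp only at w1 w2 w3 w4 ⊢
      have hK : q - p ≠ k0 := by
        intro hc; rw [hc] at w3 w4; omega
      have l1 := (hL (q - p) (by omega) (by omega)).2 p hs w3
      have r1 := (hR (q - p) (by omega) (by omega)).2 p hs w4
      exact ⟨⟨by omega, by omega, l1, by omega⟩, ⟨by omega, by omega, by omega, r1⟩⟩

/-- Length of the run of rotors `τ` on row `l`, from index `j` in direction `s`, cut at `T`. -/
def run (ρ : V → Fin 4) (τ : Fin 4) (l s : ℤ) : ℕ → ℤ → ℕ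
  | 0, _ => 0
  | T + 1, j => if ρ (vtx l j) = τ then run ρ τ l s T (j + s) + 1 else 0

lemma run_le (ρ : V → Fin 4) (τ : Fin 4) (l s : ℤ) (T : ℕ) (j : ℤ) : run ρ τ l s T j ≤ T := by
  induction T generalizing j with
  | zero => simp [run]
  | succ T ih =>
    unfold run
    split_ifs
    · have := ih (j + s); omega
    · omega

lemma run_spec (ρ : V → Fin 4) (τ : Fin 4) (l s : ℤ) (T : ℕ) (j : ℤ) (m : ℕ)
    (hm : m < run ρ τ l s T j) : ρ (vtx l (j + s * m)) = τ := by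
  induction T generalizing j m with
  | zero => simp [run] at hm
  | succ T ih =>
    unfold run at hm
    split_ifs at hm with h
    · cases m with
      | zero => simpa using h
      | succ m =>
        have := ih (j + s) m (by omega)
        have e : j + s * ((m + 1 : ℕ) : ℤ) = j + s + s * m := by push_cast; ring
        rwa [e]
    · omega

lemma run_pos (ρ : V → Fin 4) (τ : Fin 4) (l s : ℤ) (T : ℕ) (j : ℤ) (h : ρ (vtx l j) = τ) :
    1 ≤ run ρ τ l s (T + 1) j := by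
  unfold run
  rw [if_pos h]; omega

lemma run_right {ρ : V → Fin 4} {τ : Fin 4} {l : ℤ} {T : ℕ} {c j : ℤ} (h1 : c ≤ j)
    (h2 : j < c + run ρ τ l 1 T c) : ρ (vtx l j) = τ := by
  have := run_spec ρ τ l 1 T c (j - c).toNat (by omega)
  have e : c + 1 * (((j - c).toNat : ℕ) : ℤ) = j := by omega
  rwa [e] at this

lemma run_left {ρ : V → Fin 4} {τ : Fin 4} {l : ℤ} {T : ℕ} {c j : ℤ} (h1 : j ≤ c)
    (h2 : c - run ρ τ l (-1) T c < j) : ρ (vtx l j) = τ := by
  have := run_spec ρ τ l (-1) T c (c - j).toNat (by omega)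
  have e : c + -1 * (((c - j).toNat : ℕ) : ℤ) = j := by omega
  rwa [e] at this

lemma LA_right (ρ : V → Fin 4) (k v : ℤ) (T : ℕ) :
    LA ρ k v (v + ((run ρ 0 k 1 (T + 1) (v - 1) : ℤ) - 1)) := by
  constructor
  · intro j hj h1
    by_contra hc
    have := run_right (ρ := ρ) (τ := 0) (l := k) (T := T + 1) (c := v - 1) (j := j)
      (by omega) (by omega)
    rw [hj] at this; exact absurd this (by decide)
  · intro j hj h1
    by_contra hc
    have e : j = v - 1 := by omega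
    have := run_pos ρ 0 k 1 T (v - 1) (e ▸ hj)
    omega

lemma LA_left (ρ : V → Fin 4) (k v : ℤ) (T : ℕ) :
    LA ρ k v (v + -(run ρ 2 k (-1) (T + 1) (v - 1) : ℤ)) := by
  constructor
  · intro j hj h1
    by_contra hc
    have e : j = v - 1 := by omega
    have := run_pos ρ 2 k (-1) T (v - 1) (e ▸ hj)
    omega
  · intro j hj h1
    by_contra hc
    have := run_left (ρ := ρ) (τ := 2) (l := k) (T := T + 1) (c := v - 1) (j := j)
      (by omega) (by omega)
    rw [hj] at this; exact absurd this (by decide)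

lemma RA_right (ρ : V → Fin 4) (k v : ℤ) (T : ℕ) :
    RA ρ k (v + (run ρ 0 k 1 (T + 1) v : ℤ)) v := by
  constructor
  · intro j hj h1
    by_contra hc
    have := run_right (ρ := ρ) (τ := 0) (l := k) (T := T + 1) (c := v) (j := j)
      (by omega) (by omega)
    rw [hj] at this; exact absurd this (by decide)
  · intro j hj h1
    by_contra hc
    have e : j = v := by omega
    have := run_pos ρ 0 k 1 T v (e ▸ hj)
    omega

lemma RA_left (ρ : V → Fin 4) (k v : ℤ) (T : ℕ) :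
    RA ρ k (v + (1 - (run ρ 2 k (-1) (T + 1) v : ℤ))) v := by
  constructor
  · intro j hj h1
    by_contra hc
    have e : j = v := by omega
    have := run_pos ρ 2 k (-1) T v (e ▸ hj)
    omega
  · intro j hj h1
    by_contra hc
    have := run_left (ρ := ρ) (τ := 2) (l := k) (T := T + 1) (c := v) (j := j)
      (by omega) (by omega)
    rw [hj] at this; exact absurd this (by decide)

/-- Walk with position dependent increments. -/
def wk (Y : ℕ → ℤ → ℤ) (A : ℤ) : ℕ → ℤ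
  | 0 => A
  | k + 1 => wk Y A k + Y k (wk Y A k)

lemma wk_bound {Y : ℕ → ℤ → ℤ} {L : ℤ} (h : ∀ k v, |Y k v| ≤ L) (A : ℤ) (k : ℕ) :
    |wk Y A k - A| ≤ k * L := by
  induction k with
  | zero => simp [wk]
  | succ k ih =>
    have := h k (wk Y A k)
    unfold wk
    rw [abs_le] at *
    push_cast
    constructor <;> linarith [ih.1, ih.2, this.1, this.2]

/-- Increments of the left boundary. -/
def Ya (T : ℕ) (l0 : ℤ) (n : ℕ) (ρ : V → Fin 4) (k : ℕ) (v : ℤ) : ℤ :=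
  if k < n then -(run ρ 2 (l0 - n + k + 1) (-1) (T + 1) (v - 1) : ℤ)
  else (run ρ 0 (l0 - n + k + 1) 1 (T + 1) (v - 1) : ℤ) - 1

/-- Increments of the right boundary. -/
def Yb (T : ℕ) (l0 : ℤ) (n : ℕ) (ρ : V → Fin 4) (k : ℕ) (v : ℤ) : ℤ :=
  if k < n then (run ρ 0 (l0 + n - k) 1 (T + 1) v : ℤ)
  else 1 - (run ρ 2 (l0 + n - k) (-1) (T + 1) v : ℤ)

lemma Ya_abs (T : ℕ) (l0 : ℤ) (n : ℕ) (ρ : V → Fin 4) (k : ℕ) (v : ℤ) :
    |Ya T l0 n ρ k v| ≤ (T : ℤ) + 1 := by
  unfold Ya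
  have h1 := run_le ρ 2 (l0 - n + k + 1) (-1) (T + 1) (v - 1)
  have h2 := run_le ρ 0 (l0 - n + k + 1) 1 (T + 1) (v - 1)
  rw [abs_le]
  split_ifs <;> omega

lemma Yb_abs (T : ℕ) (l0 : ℤ) (n : ℕ) (ρ : V → Fin 4) (k : ℕ) (v : ℤ) :
    |Yb T l0 n ρ k v| ≤ (T : ℤ) + 1 := by
  unfold Yb
  have h1 := run_le ρ 2 (l0 + n - k) (-1) (T + 1) v
  have h2 := run_le ρ 0 (l0 + n - k) 1 (T + 1) v
  rw [abs_le]
  split_ifs <;> omega

/-- A lens around a site. -/
lemma lens_good {ρ : V → Fin 4} (T n M : ℕ) (l0 i0 A B : ℤ)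
    (h2 : ∀ y, Near (M + 2 * n * (T + 1) + n + 2) (vtx l0 i0) y → ρ y = 0 ∨ ρ y = 2)
    (hA : |A - i0| ≤ M) (hB : |B - i0| ≤ M)
    (h1 : wk (Ya T l0 n ρ) A n ≤ i0) (h3 : i0 + 1 ≤ wk (Yb T l0 n ρ) B n)
    (h4 : B < wk (Ya T l0 n ρ) A (2 * n)) (h5 : wk (Yb T l0 n ρ) B (2 * n) < A) :
    Good ρ (M + 2 * n * (T + 1) + n + 2) (vtx l0 i0) := by
  set fa : ℤ → ℤ := fun l => wk (Ya T l0 n ρ) A (l - (l0 - n)).toNat with hfa
  set fb : ℤ → ℤ := fun l => wk (Yb T l0 n ρ) B (l0 + n - l).toNat with hfb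
  have a0 : fa l0 = wk (Ya T l0 n ρ) A n := by
    simp only [hfa]; congr 1; omega
  have b0 : fb l0 = wk (Yb T l0 n ρ) B n := by
    simp only [hfb]; congr 1; omega
  have ev : (vtx l0 i0).2 - (vtx l0 i0).1 = l0 := by simp [vtx]
  have ev1 : (vtx l0 i0).1 = i0 := rfl
  have hW : ∀ l i, Wn fa fb (l0 - n) (l0 + n) l i →
      l0 - n ≤ l ∧ l ≤ l0 + n ∧ i0 - M - 2 * n * (T + 1) ≤ i ∧ i ≤ i0 + M + 2 * n * (T + 1) := by
    rintro l i ⟨w1, w2, w3, w4⟩
    have c1 := wk_bound (Ya_abs T l0 n ρ) A (l - (l0 - n)).toNat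
    have c2 := wk_bound (Yb_abs T l0 n ρ) B (l0 + n - l).toNat
    have d1 : (((l - (l0 - n)).toNat : ℕ) : ℤ) * ((T : ℤ) + 1) ≤ 2 * n * (T + 1) :=
      mul_le_mul_of_nonneg_right (by omega) (by positivity)
    have d2 : (((l0 + n - l).toNat : ℕ) : ℤ) * ((T : ℤ) + 1) ≤ 2 * n * (T + 1) :=
      mul_le_mul_of_nonneg_right (by omega) (by positivity)
    rw [abs_le] at c1 c2 hA hB
    simp only [hfa, hfb] at w3 w4
    refine ⟨w1, w2, ?_, ?_⟩ <;> linarith [c1.1, c1.2, c2.1, c2.2, hA.1, hA.2, hB.1, hB.2]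
  have hnear : ∀ y e, Reg fa fb (l0 - n) (l0 + n) y e →
      Near (M + 2 * n * (T + 1) + n + 2) (vtx l0 i0) y := by
    intro y e h
    have hy : l0 - n ≤ y.2 - y.1 ∧ y.2 - y.1 ≤ l0 + n + 1 ∧
        i0 - M - 2 * n * (T + 1) - 1 ≤ y.1 ∧ y.1 ≤ i0 + M + 2 * n * (T + 1) := by
      rcases fin4_cases e with rfl | rfl | rfl | rfl
      · have := hW _ _ (reg0.mp h).1; omega
      · have := hW _ _ (reg1.mp h); omega
      · have := hW _ _ (reg2.mp h).1; omega
      · have := hW _ _ (reg3.mp h); omega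
    simp only [Near, vtx, abs_le]
    push_cast
    omega
  have hclo : Clo ρ (Reg fa fb (l0 - n) (l0 + n)) := by
    refine lens_clo (fun y e h => h2 y (hnear y e h)) ?_ ?_ ?_ ?_
    · intro k k1 k2
      obtain ⟨m, rfl⟩ : ∃ m : ℕ, k = l0 - n + m + 1 := ⟨(k - (l0 - n) - 1).toNat, by omega⟩
      have e1 : (l0 - n + m + 1 - 1 - (l0 - n)).toNat = m := by omega
      have e2 : (l0 - n + m + 1 - (l0 - n)).toNat = m + 1 := by omega
      simp only [hfa, e1, e2, wk]
      generalize wk (Ya T l0 n ρ) A m = v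
      unfold Ya
      split_ifs
      · exact LA_left _ _ _ _
      · exact LA_right _ _ _ _
    · intro k k1 k2
      obtain ⟨m, rfl⟩ : ∃ m : ℕ, k = l0 + n - m := ⟨(l0 + n - k).toNat, by omega⟩
      have e1 : (l0 + n - (l0 + n - m - 1)).toNat = m + 1 := by omega
      have e2 : (l0 + n - (l0 + n - m)).toNat = m := by omega
      simp only [hfb, e1, e2, wk]
      generalize wk (Yb T l0 n ρ) B m = v
      unfold Yb
      split_ifs
      · exact RA_right _ _ _ _
      · exact RA_left _ _ _ _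
    · have e1 : (l0 + n - (l0 + n)).toNat = 0 := by omega
      have e2 : (l0 + n - (l0 - n)).toNat = 2 * n := by omega
      simp only [hfa, hfb, e1, e2, wk]
      exact h4
    · have e1 : (l0 - n - (l0 - n)).toNat = 0 := by omega
      have e2 : (l0 + n - (l0 - n)).toNat = 2 * n := by omega
      simp only [hfa, hfb, e1, e2, wk]
      exact h5
  refine ⟨_, hclo, ?_, ?_, hnear⟩
  · rw [reg0, ev, ev1]
    exact ⟨⟨by omega, by omega, by omega, by omega⟩, ⟨by omega, by omega, by omega, by omega⟩⟩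
  · rw [reg3, ev, ev1]
    exact ⟨by omega, by omega, by omega, by omega⟩

end Pool.Agent.Lib.MP_9d2e01_pr
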