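import Pool.Agent.Lib.MP_9d2e01_pr.Two.Boot

set_option autoImplicit false
set_option linter.unusedSectionVars false
set_option linter.deprecated false

namespace Pool.Agent.Lib.MP_9d2e01_pr

open MeasureTheory ProbabilityTheory Finset Relation Filter

variable (ν : Measure (Fin 4)) [IsProbabilityMeasure ν]

lemma gm_mono {p q : ℝ} (h : 0 ≤ p) (hpq : p ≤ q) (T : ℕ) : gm p T ≤ gm q T := by
  induction T with
  | zero => simp [gm]
  | succ T ih =>
    simp only [gm]
    have := gm_nonneg h T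
    exact mul_le_mul hpq (by linarith) (by linarith) (h.trans hpq)

lemma run_row (τ : Fin 4) (l s : ℤ) (hs : s = 1 ∨ s = -1) (T : ℕ) (j : ℤ) :
    LocF (fun ρ => run ρ τ l s T j) (Row l) :=
  (run_loc τ l s hs T j).mono (fun _ hx => hx.1)

lemma Ya_loc (T : ℕ) (l0 : ℤ) (n k : ℕ) (v : ℤ) :
    LocF (fun ρ => Ya T l0 n ρ k v) (Row (l0 - n + k + 1)) := by
  unfold Ya
  split_ifs
  · exact (run_row 2 _ (-1) (Or.inr rfl) _ _).comp (fun a : ℕ => -(a : ℤ))
  · exact (run_row 0 _ 1 (Or.inl rfl) _ _).comp (fun a : ℕ => (a : ℤ) - 1)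

lemma Yb_loc (T : ℕ) (l0 : ℤ) (n k : ℕ) (v : ℤ) :
    LocF (fun ρ => Yb T l0 n ρ k v) (Row (l0 + n - k)) := by
  unfold Yb
  split_ifs
  · exact (run_row 0 _ 1 (Or.inl rfl) _ _).comp (fun a : ℕ => (a : ℤ))
  · exact (run_row 2 _ (-1) (Or.inr rfl) _ _).comp (fun a : ℕ => 1 - (a : ℤ))

lemma Ya_mean (T : ℕ) (l0 : ℤ) (n k : ℕ) (v : ℤ) :
    ∫ ρ, (Ya T l0 n ρ k v : ℝ) ∂(PP ν) =
      if k < n then -gm (ν.real {2}) (T + 1) else gm (ν.real {0}) (T + 1) - 1 := by
  unfold Ya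
  split_ifs
  · push_cast
    rw [integral_neg, run_mean ν 2 _ (-1) (Or.inr rfl)]
  · push_cast
    rw [integral_sub (((run_row 0 _ 1 (Or.inl rfl) _ _).comp (fun a : ℕ => (a : ℝ))).integrable ν)
      (integrable_const _), run_mean ν 0 _ 1 (Or.inl rfl)]
    simp

lemma Yb_mean (T : ℕ) (l0 : ℤ) (n k : ℕ) (v : ℤ) :
    ∫ ρ, (Yb T l0 n ρ k v : ℝ) ∂(PP ν) =
      if k < n then gm (ν.real {0}) (T + 1) else 1 - gm (ν.real {2}) (T + 1) := by
  unfold Yb
  split_ifs
  · push_cast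
    rw [run_mean ν 0 _ 1 (Or.inl rfl)]
  · push_cast
    rw [integral_sub (integrable_const _)
      (((run_row 2 _ (-1) (Or.inr rfl) _ _).comp (fun a : ℕ => (a : ℝ))).integrable ν),
      run_mean ν 2 _ (-1) (Or.inr rfl)]
    simp

lemma sum_half (n : ℕ) (a b : ℝ) : ∑ k ∈ range n, (if k < n then a else b) = n * a := by
  rw [Finset.sum_congr rfl (fun k hk => if_pos (Finset.mem_range.mp hk))]
  simp

lemma sum_full (n : ℕ) (a b : ℝ) :
    ∑ k ∈ range (2 * n), (if k < n then a else b) = n * a + n * b := by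
  rw [two_mul, Finset.sum_range_add, sum_half,
    Finset.sum_congr rfl (fun k _ => if_neg (show ¬ n + k < n by omega))]
  simp

lemma bad_site {ε : ℝ} (hε : ν.real {1} + ν.real {3} ≤ ε) (y : V) :
    (PP ν).real {ρ | ¬ (ρ y = 0 ∨ ρ y = 2)} ≤ ε := by
  classical
  have h1 : ∀ τ : Fin 4, (PP ν).real {ρ | ρ y = τ} = ν.real {τ} := by
    intro τ
    rw [← coord_mean ν y τ]
    exact ((LocF.coord (Set.mem_univ y)).comp (fun a => a = τ)).real_eq ν
  have h2 : {ρ : V → Fin 4 | ¬ (ρ y = 0 ∨ ρ y = 2)} ⊆ {ρ | ρ y = 1} ∪ {ρ | ρ y = 3} := by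
    intro ρ h
    have := fin4_cases (ρ y)
    simp only [Set.mem_setOf_eq, Set.mem_union] at h ⊢
    tauto
  refine (measureReal_mono h2).trans ((measureReal_union_le _ _).trans ?_)
  rw [h1, h1]; exact hε

lemma not_good_le {T : ℕ} {γ ε : ℝ} (hγ : 0 < γ)
    (h0 : 1 / 2 + 2 * γ ≤ gm (ν.real {0}) (T + 1)) (h2 : 1 / 2 + 2 * γ ≤ gm (ν.real {2}) (T + 1))
    (hε : ν.real {1} + ν.real {3} ≤ ε) (n : ℕ) (y : V) :
    (PP ν).real {ρ | ¬ Good ρ ((T + 1) * n + 1 + 2 * n * (T + 1) + n + 2) y} ≤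
      (2 * ((T + 1) * n + 1 + 2 * n * (T + 1) + n + 2) + 1) ^ 2 * ε +
        4 * Real.exp (1 - γ ^ 2 / (2 * (T + 1) ^ 2) * n) := by
  set g := gm (ν.real {0}) (T + 1) with hg
  set g' := gm (ν.real {2}) (T + 1) with hg'
  have gle : g ≤ T + 1 := by
    have := gm_le (p := ν.real {0}) measureReal_nonneg measureReal_le_one (T + 1)
    push_cast at this; exact this
  have gle' : g' ≤ T + 1 := by
    have := gm_le (p := ν.real {2}) measureReal_nonneg measureReal_le_one (T + 1)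
    push_cast at this; exact this
  set L : ℝ := T + 1 with hL
  have L1 : 1 ≤ L := by rw [hL]; have : (0 : ℝ) ≤ T := Nat.cast_nonneg T; linarith
  have n0 : (0 : ℝ) ≤ n := Nat.cast_nonneg n
  obtain ⟨i0, q⟩ := y
  set l0 := q - i0 with hl0
  have ev : ((i0, q) : V) = vtx l0 i0 := by simp [vtx, hl0]
  set A : ℤ := i0 + ⌈(g' - γ) * n⌉ with hA
  set B : ℤ := i0 - ⌈(g - γ) * n⌉ with hB
  have A1 : (i0 : ℝ) + (g' - γ) * n ≤ A := by
    rw [hA]; push_cast; linarith [Int.le_ceil ((g' - γ) * n)]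
  have A2 : (A : ℝ) ≤ i0 + (g' - γ) * n + 1 := by
    rw [hA]; push_cast; linarith [Int.ceil_lt_add_one ((g' - γ) * n)]
  have B1 : (B : ℝ) ≤ i0 - (g - γ) * n := by
    rw [hB]; push_cast; linarith [Int.le_ceil ((g - γ) * n)]
  have B2 : (i0 : ℝ) - (g - γ) * n - 1 ≤ B := by
    rw [hB]; push_cast; linarith [Int.ceil_lt_add_one ((g - γ) * n)]
  have p1 : 0 ≤ (g' - γ) * n := mul_nonneg (by linarith) n0
  have p2 : 0 ≤ (g - γ) * n := mul_nonneg (by linarith) n0
  have p3 : (g' - γ) * n ≤ L * n := mul_le_mul_of_nonneg_right (by linarith) n0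
  have p4 : (g - γ) * n ≤ L * n := mul_le_mul_of_nonneg_right (by linarith) n0
  have MA : |A - i0| ≤ (((T + 1) * n + 1 : ℕ) : ℤ) := by
    have : |(A : ℝ) - i0| ≤ L * n + 1 := by rw [abs_le]; constructor <;> linarith
    rw [hL] at this
    exact_mod_cast this
  have MB : |B - i0| ≤ (((T + 1) * n + 1 : ℕ) : ℤ) := by
    have : |(B : ℝ) - i0| ≤ L * n + 1 := by rw [abs_le]; constructor <;> linarith
    rw [hL] at this
    exact_mod_cast this
  set η := γ / L ^ 2 with hη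
  have η0 : 0 < η := by positivity
  have η1 : η ≤ 1 := by
    rw [hη, div_le_one (by positivity)]; nlinarith
  have ηL : L ^ 2 * η ^ 2 / 2 = γ ^ 2 / (2 * L ^ 2) := by rw [hη]; field_simp
  have ηγ : η * γ = 2 * (γ ^ 2 / (2 * L ^ 2)) := by rw [hη]; field_simp
  set δ := γ ^ 2 / (2 * L ^ 2) with hδ
  have δ0 : 0 ≤ δ * n := by positivity
  have ia : Function.Injective (fun k : ℕ => l0 - n + k + 1) := fun a b h => by
    simp only at h; omega
  have ib : Function.Injective (fun k : ℕ => l0 + n - k) := fun a b h => by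
    simp only at h; omega
  have ba : ∀ ρ k v, |(Ya T l0 n ρ k v : ℝ)| ≤ L := fun ρ k v => by
    rw [hL]; exact_mod_cast Ya_abs T l0 n ρ k v
  have bb : ∀ ρ k v, |(Yb T l0 n ρ k v : ℝ)| ≤ L := fun ρ k v => by
    rw [hL]; exact_mod_cast Yb_abs T l0 n ρ k v
  have ta := wk_tail ν ia (Ya_loc T l0 n) (by linarith) ba (Ya_mean ν T l0 n) A
  have tb := wk_tail ν ib (Yb_loc T l0 n) (by linarith) bb (Yb_mean ν T l0 n) B
  have t1 := ta η (η * (γ * n)) n
  have t2 := tb (-η) (η * (γ * n - 1)) n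
  have t3 := ta (-η) (η * (2 * γ * n)) (2 * n)
  have t4 := tb η (η * (2 * γ * n)) (2 * n)
  rw [sum_half] at t1 t2
  rw [sum_full] at t3 t4
  rw [← hg, ← hg'] at t3 t4
  rw [← hg'] at t1
  rw [← hg] at t2
  rw [neg_sq] at t2 t3
  rw [ηL] at t1 t2 t3 t4
  have e1 : η * (γ * n) = 2 * (δ * n) := by rw [← mul_assoc, ηγ]; ring
  have u1 := t1.trans (Real.exp_le_exp.mpr (show _ ≤ 1 - δ * n by rw [e1]; linarith))
  have u2 := t2.trans (Real.exp_le_exp.mpr (show _ ≤ 1 - δ * n by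
    rw [mul_sub, e1]; linarith))
  have e2 : η * (2 * γ * n) = 4 * (δ * n) := by
    rw [show η * (2 * γ * n) = 2 * (η * (γ * n)) by ring, e1]; ring
  have u3 := t3.trans (Real.exp_le_exp.mpr (show _ ≤ 1 - δ * n by
    rw [e2]; push_cast; linarith))
  have u4 := t4.trans (Real.exp_le_exp.mpr (show _ ≤ 1 - δ * n by
    rw [e2]; push_cast; linarith))
  set D : ℕ := (T + 1) * n + 1 + 2 * n * (T + 1) + n + 2 with hD
  have u0 := real_exists_le ν (box D (vtx l0 i0)) (fun z ρ => ¬ (ρ z = 0 ∨ ρ z = 2))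
    (fun z _ => bad_site ν hε z)
  rw [card_box] at u0
  have q1 : 4 * (γ * n) ≤ (2 * g - 1) * n := by
    rw [← mul_assoc]; exact mul_le_mul_of_nonneg_right (by linarith) n0
  have q2 : 4 * (γ * n) ≤ (2 * g' - 1) * n := by
    rw [← mul_assoc]; exact mul_le_mul_of_nonneg_right (by linarith) n0
  refine le_trans (measureReal_mono ?_) ((measureReal_union_le _ _).trans (add_le_add u0
    ((measureReal_union_le _ _).trans (add_le_add u1 ((measureReal_union_le _ _).trans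
      (add_le_add u2 ((measureReal_union_le _ _).trans (add_le_add u3 u4)))))))) |>.trans ?_
  · intro ρ hρ
    by_contra hc
    simp only [Set.mem_union, Set.mem_setOf_eq, not_or, not_le, not_exists, not_and, not_not] at hc
    obtain ⟨c0, c1, c2, c3, c4⟩ := hc
    apply hρ
    rw [ev]
    have d1 := lt_of_mul_lt_mul_left c1 η0.le
    rw [neg_mul, ← mul_neg] at c2 c3
    have d2 := lt_of_mul_lt_mul_left c2 η0.le
    have d3 := lt_of_mul_lt_mul_left c3 η0.le
    have d4 := lt_of_mul_lt_mul_left c4 η0.le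
    refine lens_good T n ((T + 1) * n + 1) l0 i0 A B ?_ MA MB ?_ ?_ ?_ ?_
    · intro z hz
      by_contra h5
      rw [not_or] at h5
      exact h5.2 (c0 z (mem_box.mpr hz) h5.1)
    · have : (wk (Ya T l0 n ρ) A n : ℝ) < i0 + 1 := by linarith
      have : wk (Ya T l0 n ρ) A n < i0 + 1 := by exact_mod_cast this
      omega
    · have : (i0 : ℝ) < wk (Yb T l0 n ρ) B n := by linarith
      have : i0 < wk (Yb T l0 n ρ) B n := by exact_mod_cast this
      omega
    · have : (B : ℝ) < wk (Ya T l0 n ρ) A (2 * n) := by linarith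
      exact_mod_cast this
    · have : (wk (Yb T l0 n ρ) B (2 * n) : ℝ) < A := by linarith
      exact_mod_cast this
  · apply le_of_eq
    rw [hD, hL]
    push_cast
    ring

end Pool.Agent.Lib.MP_9d2e01_pr
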