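import Pool.Agent.Lib.MP_9d2e01_pr.Two.Lens

set_option autoImplicit false
set_option linter.unusedSectionVars false
set_option linter.deprecated false

namespace Pool.Agent.Lib.MP_9d2e01_pr

open MeasureTheory ProbabilityTheory Finset

/-- The function only depends on finitely many coordinates, all in `S`. -/
def LocF {β : Type} (f : (V → Fin 4) → β) (S : Set V) : Prop :=
  ∃ F : Finset V, (F : Set V) ⊆ S ∧ ∀ ω ω', (∀ i ∈ F, ω i = ω' i) → f ω = f ω'

lemma LocF.mono {β : Type} {f : (V → Fin 4) → β} {S T : Set V} (h : LocF f S) (hST : S ⊆ T) :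
    LocF f T := by
  obtain ⟨F, h1, h2⟩ := h
  exact ⟨F, h1.trans hST, h2⟩

lemma LocF.comp {β γ : Type} {f : (V → Fin 4) → β} {S : Set V} (h : LocF f S) (g : β → γ) :
    LocF (fun ω => g (f ω)) S := by
  obtain ⟨F, h1, h2⟩ := h
  exact ⟨F, h1, fun ω ω' hω => by simp only [h2 ω ω' hω]⟩

lemma LocF.const {β : Type} (b : β) (S : Set V) : LocF (fun _ => b) S :=
  ⟨∅, by simp, fun _ _ _ => rfl⟩

lemma LocF.coord {S : Set V} {x : V} (hx : x ∈ S) : LocF (fun ω => ω x) S :=
  ⟨{x}, by simpa using hx, fun ω ω' h => h x (by simp)⟩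

lemma LocF.comp2 {β γ δ : Type} {f : (V → Fin 4) → β} {g : (V → Fin 4) → γ} {S : Set V}
    (h : LocF f S) (h' : LocF g S) (φ : β → γ → δ) : LocF (fun ω => φ (f ω) (g ω)) S := by
  classical
  obtain ⟨F, h1, h2⟩ := h
  obtain ⟨G, k1, k2⟩ := h'
  refine ⟨F ∪ G, by simp [h1, k1], fun ω ω' hω => ?_⟩
  simp only [h2 ω ω' (fun i hi => hω i (by simp [hi])), k2 ω ω' (fun i hi => hω i (by simp [hi]))]

lemma factor_of_dep {β : Type} {f : (V → Fin 4) → β} {F : Finset V}
    (h : ∀ ω ω', (∀ i ∈ F, ω i = ω' i) → f ω = f ω') :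
    ∃ g : (F → Fin 4) → β, f = g ∘ (fun ω (i : F) => ω i) := by
  classical
  refine ⟨fun z => f (fun i => if hi : i ∈ F then z ⟨i, hi⟩ else 0), ?_⟩
  funext ω
  exact h _ _ (fun i hi => by simp [hi])

lemma LocF.finite_range {β : Type} {f : (V → Fin 4) → β} {S : Set V} (h : LocF f S) :
    (Set.range f).Finite := by
  obtain ⟨F, -, h2⟩ := h
  obtain ⟨g, rfl⟩ := factor_of_dep h2
  exact (Set.finite_range g).subset (Set.range_comp_subset_range _ _)

lemma LocF.measurable {β : Type} [MeasurableSpace β] {f : (V → Fin 4) → β} {S : Set V}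
    (h : LocF f S) : Measurable f := by
  obtain ⟨F, -, h2⟩ := h
  obtain ⟨g, rfl⟩ := factor_of_dep h2
  exact (measurable_of_finite g).comp (by fun_prop)

lemma LocF.bind {β γ : Type} {f : (V → Fin 4) → β} {S : Set V} (h : LocF f S)
    {g : β → (V → Fin 4) → γ} (hg : ∀ v, LocF (g v) S) : LocF (fun ω => g (f ω) ω) S := by
  classical
  have hr := h.finite_range
  obtain ⟨F, h1, h2⟩ := h
  choose G k1 k2 using hg
  refine ⟨F ∪ hr.toFinset.biUnion G, ?_, fun ω ω' hω => ?_⟩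
  · intro x hx
    simp only [Finset.coe_union, Set.mem_union, Finset.mem_coe, Finset.mem_biUnion] at hx
    rcases hx with hx | ⟨v, -, hx⟩
    · exact h1 hx
    · exact k1 v hx
  · have e := h2 ω ω' (fun i hi => hω i (by simp [hi]))
    simp only [← e]
    refine k2 _ _ _ (fun i hi => hω i ?_)
    simp only [Finset.mem_union, Finset.mem_biUnion]
    exact Or.inr ⟨f ω, by simp, hi⟩

variable (ν : Measure (Fin 4)) [IsProbabilityMeasure ν]

/-- The product law of the initial rotors. -/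
noncomputable abbrev PP : Measure (V → Fin 4) := Measure.infinitePi (fun _ : V => ν)

lemma LocF.integrable {f : (V → Fin 4) → ℝ} {S : Set V} (h : LocF f S) : Integrable f (PP ν) := by
  obtain ⟨C, hC⟩ := (h.comp (fun x => ‖x‖)).finite_range.bddAbove
  exact Integrable.of_bound h.measurable.aestronglyMeasurable C
    (Filter.Eventually.of_forall (fun ω => hC ⟨ω, rfl⟩))

lemma LocF.integral_mul {f g : (V → Fin 4) → ℝ} {S T : Set V} (hf : LocF f S) (hg : LocF g T)
    (hST : Disjoint S T) :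
    ∫ ω, f ω * g ω ∂(PP ν) = (∫ ω, f ω ∂(PP ν)) * ∫ ω, g ω ∂(PP ν) := by
  have mf := hf.measurable
  have mg := hg.measurable
  obtain ⟨F, h1, h2⟩ := hf
  obtain ⟨G, k1, k2⟩ := hg
  obtain ⟨f', hf'⟩ := factor_of_dep h2
  obtain ⟨g', hg'⟩ := factor_of_dep k2
  have hd : Disjoint F G := by
    rw [Finset.disjoint_left]
    intro i hi hi'
    exact Set.disjoint_left.mp hST (h1 hi) (k1 hi')
  have hind : iIndepFun (fun (i : V) (ω : V → Fin 4) => ω i) (PP ν) :=
    iIndepFun_infinitePi (X := fun _ a => a) (fun _ => measurable_id)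
  have h3 := (hind.indepFun_finset _ _ hd (fun i => measurable_pi_apply i)).comp
    (measurable_of_finite f') (measurable_of_finite g')
  rw [← hf', ← hg'] at h3
  exact h3.integral_fun_mul_eq_mul_integral mf.aestronglyMeasurable mg.aestronglyMeasurable

lemma integral_bind_le {X : (V → Fin 4) → ℤ} {S T : Set V} (hX : LocF X S) (hST : Disjoint S T)
    {Y : ℤ → (V → Fin 4) → ℝ} (hY : ∀ v, LocF (Y v) T) {φ : ℤ → ℝ} (hφ : ∀ v, 0 ≤ φ v) {m : ℝ}
    (hm : ∀ v, ∫ ω, Y v ω ∂(PP ν) ≤ m) :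
    ∫ ω, φ (X ω) * Y (X ω) ω ∂(PP ν) ≤ (∫ ω, φ (X ω) ∂(PP ν)) * m := by
  classical
  set R := hX.finite_range.toFinset with hR
  have hmem : ∀ ω, X ω ∈ R := fun ω => by simp [hR]
  have l1 : ∀ v, LocF (fun ω => if X ω = v then φ v else 0) S :=
    fun v => hX.comp (fun z => if z = v then φ v else 0)
  have e1 : ∀ ω, φ (X ω) * Y (X ω) ω = ∑ v ∈ R, (if X ω = v then φ v else 0) * Y v ω := by
    intro ω
    simp only [ite_mul, zero_mul]
    rw [Finset.sum_ite_eq, if_pos (hmem ω)]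
  have e2 : ∀ ω, φ (X ω) = ∑ v ∈ R, (if X ω = v then φ v else 0) := by
    intro ω
    rw [Finset.sum_ite_eq, if_pos (hmem ω)]
  simp only [e1]
  rw [integral_finset_sum _ (fun v _ => (((l1 v).mono (Set.subset_univ _)).comp2
    ((hY v).mono (Set.subset_univ _)) (fun a b => a * b)).integrable ν)]
  conv_rhs => simp only [e2]
  rw [integral_finset_sum _ (fun v _ => (l1 v).integrable ν), Finset.sum_mul]
  refine Finset.sum_le_sum (fun v _ => ?_)
  rw [LocF.integral_mul ν (l1 v) (hY v) hST]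
  refine mul_le_mul_of_nonneg_left (hm v) (integral_nonneg (fun ω => ?_))
  dsimp only
  split_ifs
  · exact hφ v
  · exact le_rfl

/-- The diagonal of level `l`. -/
def Row (l : ℤ) : Set V := {x | x.2 - x.1 = l}

lemma wk_loc {Y : (V → Fin 4) → ℕ → ℤ → ℤ} {r : ℕ → ℤ}
    (hY : ∀ k v, LocF (fun ω => Y ω k v) (Row (r k))) (A : ℤ) (n : ℕ) :
    LocF (fun ω => wk (Y ω) A n) {x | ∃ k < n, x ∈ Row (r k)} := by
  induction n with
  | zero => exact LocF.const A _
  | succ n ih =>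
    have ih' : LocF (fun ω => wk (Y ω) A n) {x | ∃ k < n + 1, x ∈ Row (r k)} :=
      ih.mono (fun x ⟨k, h1, h2⟩ => ⟨k, by omega, h2⟩)
    have h2 := ih'.bind (g := fun v ω => Y ω n v)
      (fun v => (hY n v).mono (fun x hx => ⟨n, by omega, hx⟩))
    exact ih'.comp2 h2 (fun a b => a + b)

lemma wk_mgf {Y : (V → Fin 4) → ℕ → ℤ → ℤ} {r : ℕ → ℤ} (hr : Function.Injective r)
    (hY : ∀ k v, LocF (fun ω => Y ω k v) (Row (r k))) {L : ℝ} (hL : 0 ≤ L)
    (hb : ∀ ω k v, |(Y ω k v : ℝ)| ≤ L) {m : ℕ → ℝ}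
    (hm : ∀ k v, ∫ ω, (Y ω k v : ℝ) ∂(PP ν) = m k) (A : ℤ) (η : ℝ) (n : ℕ) :
    ∫ ω, Real.exp (η * ((wk (Y ω) A n : ℝ) - A - ∑ k ∈ range n, m k)) ∂(PP ν) ≤
      Real.exp (n * (L ^ 2 * η ^ 2 / 2)) := by
  induction n with
  | zero => simp [wk]
  | succ n ih =>
    have hd : Disjoint {x | ∃ k < n, x ∈ Row (r k)} (Row (r n)) := by
      rw [Set.disjoint_left]
      rintro x ⟨k, h1, h2⟩ h3
      have : r k = r n := by
        simp only [Row, Set.mem_setOf_eq] at h2 h3
        rw [← h2, ← h3]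
      have := hr this
      omega
    have hs : ∀ v, ∫ ω, Real.exp (η * ((Y ω n v : ℝ) - m n)) ∂(PP ν) ≤
        Real.exp (L ^ 2 * η ^ 2 / 2) := by
      intro v
      have h1 := (hasSubgaussianMGF_of_mem_Icc (μ := PP ν) (X := fun ω => (Y ω n v : ℝ))
        (a := -L) (b := L) ((hY n v).comp (fun z : ℤ => (z : ℝ))).measurable.aemeasurable
        (Filter.Eventually.of_forall (fun ω => abs_le.mp (hb ω n v)))).mgf_le η
      simp only [mgf, hm n v] at h1
      refine h1.trans (le_of_eq ?_)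
      congr 1
      have : ‖L - -L‖ = 2 * L := by
        rw [Real.norm_eq_abs, abs_of_nonneg (by linarith)]; ring
      simp only [NNReal.coe_pow, NNReal.coe_div, coe_nnnorm, this]
      norm_num
    have h2 := integral_bind_le ν (wk_loc hY A n) hd
      (Y := fun v ω => Real.exp (η * ((Y ω n v : ℝ) - m n)))
      (fun v => (hY n v).comp (fun z : ℤ => Real.exp (η * ((z : ℝ) - m n))))
      (φ := fun v => Real.exp (η * ((v : ℝ) - A - ∑ k ∈ range n, m k)))
      (fun v => (Real.exp_pos _).le) hs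
    have e : ∀ ω, Real.exp (η * ((wk (Y ω) A (n + 1) : ℝ) - A - ∑ k ∈ range (n + 1), m k)) =
        Real.exp (η * ((wk (Y ω) A n : ℝ) - A - ∑ k ∈ range n, m k)) *
          Real.exp (η * ((Y ω n (wk (Y ω) A n) : ℝ) - m n)) := by
      intro ω
      rw [← Real.exp_add, Finset.sum_range_succ]
      simp only [wk]
      push_cast
      ring_nf
    simp only [e]
    refine h2.trans ((mul_le_mul_of_nonneg_right ih (Real.exp_pos _).le).trans (le_of_eq ?_))
    rw [← Real.exp_add]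
    push_cast
    ring_nf

lemma wk_tail {Y : (V → Fin 4) → ℕ → ℤ → ℤ} {r : ℕ → ℤ} (hr : Function.Injective r)
    (hY : ∀ k v, LocF (fun ω => Y ω k v) (Row (r k))) {L : ℝ} (hL : 0 ≤ L)
    (hb : ∀ ω k v, |(Y ω k v : ℝ)| ≤ L) {m : ℕ → ℝ}
    (hm : ∀ k v, ∫ ω, (Y ω k v : ℝ) ∂(PP ν) = m k) (A : ℤ) (η c : ℝ) (n : ℕ) :
    (PP ν).real {ω | c ≤ η * ((wk (Y ω) A n : ℝ) - A - ∑ k ∈ range n, m k)} ≤
      Real.exp (-c + n * (L ^ 2 * η ^ 2 / 2)) := by
  have hl := (wk_loc hY A n).comp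
    (fun z : ℤ => Real.exp (1 * (η * ((z : ℝ) - A - ∑ k ∈ range n, m k))))
  have h1 := measure_ge_le_exp_mul_mgf (μ := PP ν)
    (X := fun ω => η * ((wk (Y ω) A n : ℝ) - A - ∑ k ∈ range n, m k)) c zero_le_one
    (hl.integrable ν)
  refine h1.trans ?_
  rw [Real.exp_add]
  simp only [mgf, one_mul, neg_mul]
  exact mul_le_mul_of_nonneg_left (wk_mgf ν hr hY hL hb hm A η n) (Real.exp_pos _).le

/-- Mean of the truncated run. -/
noncomputable def gm (p : ℝ) : ℕ → ℝ
  | 0 => 0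
  | T + 1 => p * (gm p T + 1)

lemma run_loc (τ : Fin 4) (l s : ℤ) (hs : s = 1 ∨ s = -1) (T : ℕ) (j : ℤ) :
    LocF (fun ρ => run ρ τ l s T j) {x | x ∈ Row l ∧ 0 ≤ s * (x.1 - j)} := by
  induction T generalizing j with
  | zero => exact LocF.const 0 _
  | succ T ih =>
    have h1 : LocF (fun ρ => ρ (vtx l j)) {x | x ∈ Row l ∧ 0 ≤ s * (x.1 - j)} :=
      LocF.coord (by simp [Row, vtx])
    have h2 : LocF (fun ρ => run ρ τ l s T (j + s)) {x | x ∈ Row l ∧ 0 ≤ s * (x.1 - j)} := by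
      refine (ih (j + s)).mono (fun x hx => ⟨hx.1, ?_⟩)
      have := hx.2
      rcases hs with rfl | rfl <;> omega
    exact h1.comp2 h2 (fun a b => if a = τ then b + 1 else 0)

lemma coord_mean (x : V) (τ : Fin 4) :
    ∫ ρ, (if ρ x = τ then (1 : ℝ) else 0) ∂(PP ν) = ν.real {τ} := by
  have h1 : (PP ν).map (fun ρ => ρ x) = ν := Measure.infinitePi_map_eval _ x
  have h2 : ∫ ρ, (if ρ x = τ then (1 : ℝ) else 0) ∂(PP ν) =
      ∫ a, (if a = τ then (1 : ℝ) else 0) ∂((PP ν).map (fun ρ => ρ x)) := by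
    rw [integral_map (measurable_pi_apply x).aemeasurable
      (measurable_of_finite _).aestronglyMeasurable]
  rw [h2, h1, ← integral_indicator_one (measurableSet_singleton τ)]
  congr 1
  funext a
  simp [Set.indicator]

lemma run_mean (τ : Fin 4) (l s : ℤ) (hs : s = 1 ∨ s = -1) (T : ℕ) (j : ℤ) :
    ∫ ρ, (run ρ τ l s T j : ℝ) ∂(PP ν) = gm (ν.real {τ}) T := by
  induction T generalizing j with
  | zero => simp [run, gm]
  | succ T ih =>
    have e : ∀ ρ : V → Fin 4, (run ρ τ l s (T + 1) j : ℝ) =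
        (if ρ (vtx l j) = τ then (1 : ℝ) else 0) * ((run ρ τ l s T (j + s) : ℝ) + 1) := by
      intro ρ
      simp only [run]
      split_ifs <;> simp
    simp only [e]
    have h1 : LocF (fun ρ => if ρ (vtx l j) = τ then (1 : ℝ) else 0) {vtx l j} :=
      (LocF.coord (Set.mem_singleton _)).comp (fun a => if a = τ then (1 : ℝ) else 0)
    have h2 := (run_loc τ l s hs T (j + s)).comp (fun a : ℕ => (a : ℝ) + 1)
    have h3 := (run_loc τ l s hs T (j + s)).comp (fun a : ℕ => (a : ℝ))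
    rw [LocF.integral_mul ν h1 h2, coord_mean, integral_add (h3.integrable ν) (integrable_const _),
      ih]
    · simp [gm]
    · rw [Set.disjoint_singleton_left]
      rintro ⟨-, h4⟩
      simp only [vtx] at h4
      rcases hs with rfl | rfl <;> omega

lemma gm_closed (p : ℝ) (T : ℕ) : (1 - p) * gm p T = p - p ^ (T + 1) := by
  induction T with
  | zero => simp [gm]
  | succ T ih =>
    simp only [gm]
    have : (1 - p) * (p * (gm p T + 1)) = p * ((1 - p) * gm p T) + p * (1 - p) := by ring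
    rw [this, ih]; ring

lemma gm_eventually {p : ℝ} (h1 : 1 / 3 < p) (h2 : p < 1) :
    ∀ᶠ T in Filter.atTop, 1 / 2 < gm p (T + 1) := by
  have h3 : Filter.Tendsto (fun T : ℕ => p ^ T) Filter.atTop (nhds 0) :=
    tendsto_pow_atTop_nhds_zero_of_lt_one (by linarith) h2
  filter_upwards [h3.eventually (gt_mem_nhds (show (0 : ℝ) < (3 * p - 1) / 2 by linarith))] with T hT
  have h4 := gm_closed p (T + 1)
  have h5 : p ^ (T + 1 + 1) ≤ p ^ T :=
    pow_le_pow_of_le_one (by linarith) h2.le (by omega)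
  by_contra hc
  push Not at hc
  have h6 : (1 - p) * gm p (T + 1) ≤ (1 - p) * (1 / 2) :=
    mul_le_mul_of_nonneg_left hc (by linarith)
  linarith

lemma gm_nonneg {p : ℝ} (h : 0 ≤ p) (T : ℕ) : 0 ≤ gm p T := by
  induction T with
  | zero => simp [gm]
  | succ T ih => simp only [gm]; positivity

lemma gm_le {p : ℝ} (h : 0 ≤ p) (h1 : p ≤ 1) (T : ℕ) : gm p T ≤ T := by
  induction T with
  | zero => simp [gm]
  | succ T ih =>
    simp only [gm]
    have := gm_nonneg h T
    push_cast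
    nlinarith

end Pool.Agent.Lib.MP_9d2e01_pr
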